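import Mathlib

/-!
# Tilings of the line by translates of a set of finite measure: basic facts
-/

open MeasureTheory Set Filter Topology
open scoped ENNReal

namespace TilingLine

/-- `1_Ω` tiles at level `w` with the translation set `Λ`: the set `Λ` is countable and
`∑_{λ ∈ Λ} 1_Ω(x - λ) = w` for almost every `x ∈ ℝ`. -/
def TilesAtLevel (w : ℕ) (Ω Λ : Set ℝ) : Prop :=
  Λ.Countable ∧ ∀ᵐ x : ℝ, ∑' l : Λ, Ω.indicator (fun _ => (1 : ℝ≥0∞)) (x - l) = w

/-- `Λ` has a periodic structure: it is a finite union of `N ≥ 1` translates of one arithmetic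
progression `α ℤ`, `α > 0`. -/
def PeriodicStructure (Λ : Set ℝ) : Prop :=
  ∃ (α : ℝ) (N : ℕ) (β : Fin N → ℝ), 0 < α ∧ 1 ≤ N ∧
    Λ = ⋃ j : Fin N, {x : ℝ | ∃ k : ℤ, x = α * k + β j}

variable {Ω Λ : Set ℝ} {w : ℕ}

/-- Integrated form of the tiling condition. -/
lemma TilesAtLevel.sum_lintegral (h : TilesAtLevel w Ω Λ) (hΩ : MeasurableSet Ω)
    {F : ℝ → ℝ≥0∞} (hF : Measurable F) :
    ∑' l : Λ, ∫⁻ y in Ω, F (y + l) = w * ∫⁻ x, F x := by
  have hc : Countable Λ := h.1.to_subtype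
  have h1 : ∀ l : Λ, ∫⁻ y in Ω, F (y + l)
      = ∫⁻ x, F x * Ω.indicator (fun _ => (1 : ℝ≥0∞)) (x - l) := by
    intro l
    rw [← lintegral_indicator hΩ]
    rw [← lintegral_sub_right_eq_self (fun y => Ω.indicator (fun y => F (y + (l : ℝ))) y) (l : ℝ)]
    congr 1
    funext x
    by_cases hx : x - l ∈ Ω
    · simp [hx]
    · simp [hx]
  calc ∑' l : Λ, ∫⁻ y in Ω, F (y + l)
      = ∑' l : Λ, ∫⁻ x, F x * Ω.indicator (fun _ => (1 : ℝ≥0∞)) (x - l) := by
        simp_rw [h1]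
    _ = ∫⁻ x, ∑' l : Λ, F x * Ω.indicator (fun _ => (1 : ℝ≥0∞)) (x - l) := by
        rw [lintegral_tsum]
        intro l
        exact (hF.mul ((measurable_const.indicator hΩ).comp
          (measurable_id.sub_const _))).aemeasurable
    _ = ∫⁻ x, F x * w := by
        apply lintegral_congr_ae
        filter_upwards [h.2] with x hx
        rw [ENNReal.tsum_mul_left, hx]
    _ = w * ∫⁻ x, F x := by
        rw [lintegral_mul_const _ hF, mul_comm]

/-- Translates of tilings are tilings. -/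
lemma TilesAtLevel.translate (h : TilesAtLevel w Ω Λ) (t : ℝ) :
    TilesAtLevel w Ω ((fun x => x + t) '' Λ) := by
  refine ⟨h.1.image _, ?_⟩
  have h2 : ∀ᵐ x : ℝ, ∑' l : Λ, Ω.indicator (fun _ => (1 : ℝ≥0∞)) (x - t - l) = w :=
    (measurePreserving_sub_right volume t).quasiMeasurePreserving.ae h.2
  filter_upwards [h2] with x hx
  rw [← hx]
  have hinj : InjOn (fun x : ℝ => x + t) Λ := fun a _ b _ hab => by simpa using hab
  rw [← Equiv.tsum_eq (Equiv.Set.imageOfInjOn _ _ hinj)]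
  congr 1
  funext l
  have : x - ((Equiv.Set.imageOfInjOn (fun x : ℝ => x + t) Λ hinj) l : ℝ) = x - t - l := by
    simp [Equiv.Set.imageOfInjOn]
    ring
  rw [this]

end TilingLine
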