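import Pool.Agent.Helper32.Tiling.Separation

/-!
# The conserved current of a pair of level-one tilings
-/

open MeasureTheory Set Filter Topology
open scoped ENNReal symmDiff

namespace TilingLine

/-- The density of the current through the cut `x`. -/
noncomputable def curDens (u a b : ℝ → ℝ) (x p : ℝ) : ℝ :=
  ((if x < a p then 1 else 0) - (if x < b p then 1 else 0)) * (u (p - b p) - u (p - a p))

lemma curDens_nonneg {u a b : ℝ → ℝ} (hu : Monotone u) (x p : ℝ) : 0 ≤ curDens u a b x p := by
  unfold curDens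
  by_cases h1 : x < a p <;> by_cases h2 : x < b p <;> simp only [h1, h2, if_true, if_false]
  · simp
  · have h3 : u (p - a p) ≤ u (p - b p) := hu (by linarith)
    linarith
  · have h3 : u (p - b p) ≤ u (p - a p) := hu (by linarith)
    linarith
  · simp

lemma curDens_symm (u a b : ℝ → ℝ) (x p : ℝ) : curDens u a b x p = curDens u b a x p := by
  unfold curDens
  ring

/-- The current through the cut `x`. -/
noncomputable def cur (u a b : ℝ → ℝ) (x : ℝ) : ℝ≥0∞ := ∫⁻ p, ENNReal.ofReal (curDens u a b x p)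

lemma cur_symm (u a b : ℝ → ℝ) (x : ℝ) : cur u a b x = cur u b a x := by
  unfold cur
  simp_rw [curDens_symm u a b]

lemma measurable_curDens {u a b : ℝ → ℝ} (hu : Measurable u) (ha : Measurable a)
    (hb : Measurable b) (x : ℝ) : Measurable (curDens u a b x) := by
  unfold curDens
  have h1 : ∀ c : ℝ → ℝ, Measurable c → Measurable fun p => (if x < c p then (1 : ℝ) else 0) := by
    intro c hc
    exact Measurable.ite (measurableSet_lt measurable_const hc) measurable_const measurable_const
  exact ((h1 a ha).sub (h1 b hb)).mul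
    ((hu.comp (measurable_id.sub hb)).sub (hu.comp (measurable_id.sub ha)))

variable {Ω A B : Set ℝ}

lemma lintegral_tile_own {b : ℝ → ℝ} (hb : TileMap Ω B b) (hB : TilesAtLevel 1 Ω B)
    (hΩ : MeasurableSet Ω) {g v : ℝ → ℝ≥0∞} (hg : Measurable g) (hv : Measurable v) :
    ∫⁻ p, g (b p) * v (p - b p) = (∑' l : B, g l) * ∫⁻ y in Ω, v y := by
  have hm : Measurable fun p => g (b p) * v (p - b p) :=
    (hg.comp hb.meas).mul (hv.comp (measurable_id.sub hb.meas))
  rw [hB.lintegral_eq hΩ hm, ← ENNReal.tsum_mul_right]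
  congr 1
  funext l
  rw [← lintegral_const_mul _ hv]
  apply lintegral_congr_ae
  filter_upwards [hb.ae_tile l.2 hΩ] with y hy
  rw [hy, add_sub_cancel_right]

lemma lintegral_tile_other {a b : ℝ → ℝ} (ha : TileMap Ω A a) (hA : TilesAtLevel 1 Ω A)
    (hb : TileMap Ω B b) (hB : TilesAtLevel 1 Ω B)
    (hΩ : MeasurableSet Ω) (h0 : volume Ω ≠ 0) (hfin : volume Ω ≠ ∞)
    {g v : ℝ → ℝ≥0∞} (hg : Measurable g) (hv : Measurable v) :
    ∫⁻ p, g (b p) * v (p - a p) = (∑' l : B, g l) * ∫⁻ y in Ω, v y := by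
  have hm : Measurable fun p => g (b p) * v (p - a p) :=
    (hg.comp hb.meas).mul (hv.comp (measurable_id.sub ha.meas))
  rw [hB.lintegral_eq hΩ hm, ← ENNReal.tsum_mul_right]
  congr 1
  funext l
  rw [← ha.lintegral_local hA hΩ h0 hfin l hv]
  have hm2 : Measurable fun y : ℝ => v (y + l - a (y + l)) :=
    hv.comp ((measurable_id.add_const _).sub (ha.meas.comp (measurable_id.add_const _)))
  rw [← lintegral_const_mul _ hm2]
  apply lintegral_congr_ae
  filter_upwards [hb.ae_tile l.2 hΩ] with y hy
  rw [hy]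

/-- The current does not depend on the cut. -/
theorem cur_const {a b u : ℝ → ℝ} (ha : TileMap Ω A a) (hA : TilesAtLevel 1 Ω A)
    (hb : TileMap Ω B b) (hB : TilesAtLevel 1 Ω B)
    (hΩ : MeasurableSet Ω) (h0 : volume Ω ≠ 0) (hfin : volume Ω ≠ ∞)
    (hu : Monotone u) (hu0 : ∀ y, 0 ≤ u y) (hu1 : ∀ y, u y ≤ 1) {x x' : ℝ} (hxx : x ≤ x') :
    cur u a b x = cur u a b x' := by
  classical
  -- separation
  obtain ⟨r, hr, hrs⟩ := exists_small_shift hΩ hfin (ε := volume Ω / 2)
    (ENNReal.half_pos h0)
  have hrs' : ∀ h : ℝ, |h| ≤ r → volume {y | y ∈ Ω ∧ y - h ∉ Ω} < volume Ω := fun h hh =>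
    lt_of_le_of_lt (hrs h hh) (ENNReal.half_lt_self h0 hfin)
  set G : ℝ → ℝ := fun t => (if x < t then 1 else 0) - (if x' < t then 1 else 0) with hG
  have hG0 : ∀ t, 0 ≤ G t := by
    intro t
    simp only [hG]
    by_cases h1 : x' < t
    · have h2 : x < t := lt_of_le_of_lt hxx h1
      simp [h1, h2]
    · by_cases h2 : x < t
      · simp [h1, h2]
      · simp [h1, h2]
  have hGle : ∀ t, ENNReal.ofReal (G t) ≤ (Icc x x').indicator (fun _ => (1 : ℝ≥0∞)) t := by
    intro t
    simp only [hG]
    by_cases h1 : x' < t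
    · have h2 : x < t := lt_of_le_of_lt hxx h1
      simp [h1, h2]
    · by_cases h2 : x < t
      · have h3 : t ∈ Icc x x' := ⟨h2.le, not_lt.mp h1⟩
        rw [indicator_of_mem h3]
        simp [h1, h2]
      · simp [h1, h2]
  have hGm : Measurable G := by
    apply Measurable.sub
    · exact Measurable.ite measurableSet_Ioi measurable_const measurable_const
    · exact Measurable.ite measurableSet_Ioi measurable_const measurable_const
  set g : ℝ → ℝ≥0∞ := fun t => ENNReal.ofReal (G t) with hg
  have hgm : Measurable g := ENNReal.measurable_ofReal.comp hGm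
  set v : ℝ → ℝ≥0∞ := fun t => ENNReal.ofReal (u t) with hv
  have hum : Measurable u := hu.measurable
  have hvm : Measurable v := ENNReal.measurable_ofReal.comp hum
  have hpt : ∀ p, ENNReal.ofReal (curDens u a b x p)
      + (g (a p) * v (p - a p) + g (b p) * v (p - b p))
      = ENNReal.ofReal (curDens u a b x' p)
      + (g (a p) * v (p - b p) + g (b p) * v (p - a p)) := by
    intro p
    simp only [hg, hv]
    rw [← ENNReal.ofReal_mul (hG0 _), ← ENNReal.ofReal_mul (hG0 _), ← ENNReal.ofReal_mul (hG0 _),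
      ← ENNReal.ofReal_mul (hG0 _),
      ← ENNReal.ofReal_add (mul_nonneg (hG0 _) (hu0 _)) (mul_nonneg (hG0 _) (hu0 _)),
      ← ENNReal.ofReal_add (mul_nonneg (hG0 _) (hu0 _)) (mul_nonneg (hG0 _) (hu0 _)),
      ← ENNReal.ofReal_add (curDens_nonneg hu _ _)
        (add_nonneg (mul_nonneg (hG0 _) (hu0 _)) (mul_nonneg (hG0 _) (hu0 _))),
      ← ENNReal.ofReal_add (curDens_nonneg hu _ _)
        (add_nonneg (mul_nonneg (hG0 _) (hu0 _)) (mul_nonneg (hG0 _) (hu0 _)))]
    congr 1
    simp only [curDens, hG]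
    ring
  have hmc : ∀ x, Measurable fun p => ENNReal.ofReal (curDens u a b x p) := fun x =>
    ENNReal.measurable_ofReal.comp (measurable_curDens hum ha.meas hb.meas x)
  have hmg : ∀ c d : ℝ → ℝ, Measurable c → Measurable d →
      Measurable fun p => g (c p) * v (p - d p) := fun c d hc hd =>
    (hgm.comp hc).mul (hvm.comp (measurable_id.sub hd))
  have hint : cur u a b x + (((∑' l : A, g l) * ∫⁻ y in Ω, v y) + ((∑' l : B, g l) * ∫⁻ y in Ω, v y))
      = cur u a b x' + (((∑' l : A, g l) * ∫⁻ y in Ω, v y)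
        + ((∑' l : B, g l) * ∫⁻ y in Ω, v y)) := by
    have h1 := lintegral_congr (μ := (volume : Measure ℝ)) hpt
    rw [lintegral_add_left (hmc x), lintegral_add_left (hmc x'),
      lintegral_add_left (hmg a a ha.meas ha.meas),
      lintegral_add_left (hmg a b ha.meas hb.meas),
      lintegral_tile_own ha hA hΩ hgm hvm, lintegral_tile_own hb hB hΩ hgm hvm,
      lintegral_tile_other hb hB ha hA hΩ h0 hfin hgm hvm,
      lintegral_tile_other ha hA hb hB hΩ h0 hfin hgm hvm] at h1
    exact h1
  have hfinite : ∀ C : Set ℝ, TilesAtLevel 1 Ω C → (∑' l : C, g l) * ∫⁻ y in Ω, v y ≠ ∞ := by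
    intro C hC
    apply ENNReal.mul_ne_top
    · have h2 := tsum_indicator_le hr hC.1 (fun l hl l' hl' hne => hC.separated hrs' hl hl' hne) hxx
      have h3 : ∑' l : C, g l ≤ ∑' l : C, (Icc x x').indicator (fun _ => (1 : ℝ≥0∞)) (l : ℝ) :=
        ENNReal.tsum_le_tsum fun l => hGle l
      exact ne_top_of_le_ne_top ENNReal.ofReal_ne_top (h3.trans h2)
    · have h4 : ∫⁻ y in Ω, v y ≤ ∫⁻ y in Ω, 1 := by
        apply lintegral_mono
        intro y
        simp only [hv]
        rw [ENNReal.ofReal_le_one]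
        exact hu1 y
      refine ne_top_of_le_ne_top ?_ h4
      simpa using hfin
  have hne : ((∑' l : A, g l) * ∫⁻ y in Ω, v y) + ((∑' l : B, g l) * ∫⁻ y in Ω, v y) ≠ ∞ :=
    ENNReal.add_ne_top.mpr ⟨hfinite A hA, hfinite B hB⟩
  exact (ENNReal.add_left_inj hne).mp hint

/-- If a point of `B` is at distance at least `r` from `A`, then the current is bounded below. -/
lemma le_cur_add_cur {a b u : ℝ → ℝ} (ha : TileMap Ω A a)
    (hb : TileMap Ω B b) (hΩ : MeasurableSet Ω)
    (hu : Monotone u) {r : ℝ} (hr : 0 < r) {β : ℝ} (hβ : β ∈ B)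
    (hfar : ∀ α ∈ A, r ≤ |α - β|) :
    ∫⁻ y in Ω, ENNReal.ofReal (min (u (y + r) - u y) (u y - u (y - r)))
      ≤ cur u a b (β + r / 2) + cur u a b (β - r / 2) := by
  have hum : Measurable u := hu.measurable
  have hmc : ∀ x, Measurable fun p => ENNReal.ofReal (curDens u a b x p) := fun x =>
    ENNReal.measurable_ofReal.comp (measurable_curDens hum ha.meas hb.meas x)
  unfold cur
  rw [← lintegral_add_left (hmc _)]
  rw [← lintegral_add_right_eq_self (fun p => ENNReal.ofReal (curDens u a b (β + r / 2) p)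
    + ENNReal.ofReal (curDens u a b (β - r / 2) p)) β]
  refine le_trans ?_ (setLIntegral_le_lintegral Ω _)
  apply lintegral_mono_ae
  have h1 := (measurePreserving_add_right volume β).quasiMeasurePreserving.ae ha.ae
  filter_upwards [hb.ae_tile hβ hΩ, ae_restrict_of_ae h1] with y hby hay
  have hay1 := hfar _ hay.1
  have e1 : y + β - β = y := by ring
  rcases le_abs'.mp hay1 with h2 | h2
  · -- `a` is to the left
    have h3 : ENNReal.ofReal (min (u (y + r) - u y) (u y - u (y - r)))
        ≤ ENNReal.ofReal (curDens u a b (β - r / 2) (y + β)) := by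
      apply ENNReal.ofReal_le_ofReal
      refine le_trans (min_le_left _ _) ?_
      unfold curDens
      rw [hby, if_neg (by linarith), if_pos (by linarith), e1]
      have h4 : u (y + r) ≤ u (y + β - a (y + β)) := hu (by linarith)
      linarith
    exact h3.trans le_add_self
  · have h3 : ENNReal.ofReal (min (u (y + r) - u y) (u y - u (y - r)))
        ≤ ENNReal.ofReal (curDens u a b (β + r / 2) (y + β)) := by
      apply ENNReal.ofReal_le_ofReal
      refine le_trans (min_le_right _ _) ?_
      unfold curDens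
      rw [hby, if_pos (by linarith), if_neg (by linarith), e1]
      have h4 : u (y + β - a (y + β)) ≤ u (y - r) := hu (by linarith)
      linarith
    exact h3.trans le_self_add

end TilingLine
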