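import Pool.Agent.Helper32.Tiling.Separation

/-!
# Rigidity: two uniformly close level-one tilings are translates of each other
-/

open MeasureTheory Set Filter Topology
open scoped ENNReal symmDiff

namespace TilingLine

variable {Ω A B : Set ℝ}

/-- `V Ω S v` is the measure of `S ∩ (Ω + v)`. -/
noncomputable def V (Ω S : Set ℝ) (v : ℝ) : ℝ≥0∞ :=
  ∫⁻ y in Ω, S.indicator (fun _ => (1 : ℝ≥0∞)) (y + v)

lemma measurable_V (S : Set ℝ) (hS : MeasurableSet S) : Measurable (V Ω S) := by
  unfold V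
  have hm : Measurable (Function.uncurry fun v y : ℝ =>
      S.indicator (fun _ => (1 : ℝ≥0∞)) (y + v)) :=
    (measurable_const.indicator hS).comp (measurable_snd.add measurable_fst)
  exact hm.lintegral_prod_right

lemma tsum_V (hB : TilesAtLevel 1 Ω B) (hΩ : MeasurableSet Ω) {S : Set ℝ} (hS : MeasurableSet S)
    (h : ℝ) : ∑' l : B, V Ω S (l + h) = volume S := by
  have hm : Measurable fun x : ℝ => S.indicator (fun _ => (1 : ℝ≥0∞)) (x + h) :=
    (measurable_const.indicator hS).comp (measurable_id.add_const h)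
  have h1 := hB.sum_lintegral hΩ hm
  unfold V
  have h2 : ∫⁻ x : ℝ, S.indicator (fun _ => (1 : ℝ≥0∞)) (x + h) = volume S := by
    rw [lintegral_add_right_eq_self (fun x => S.indicator (fun _ => (1 : ℝ≥0∞)) x) h,
      lintegral_indicator hS]
    simp
  rw [h2] at h1
  simp only [Nat.cast_one, one_mul] at h1
  rw [← h1]
  congr 1
  funext l
  congr 1
  funext y
  rw [add_assoc]

/-- The flux of the displacement `δ` through `S`. -/
noncomputable def flux (Ω B S : Set ℝ) (δ : B → ℝ) : ℝ≥0∞ :=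
  ∑' l : B, ∫⁻ h in Ioc 0 (δ l), V Ω S (l + h)

lemma flux_translate (hΩ : MeasurableSet Ω) (hB : TilesAtLevel 1 Ω B)
    (hA : TilesAtLevel 1 Ω A) (e : B ≃ A) {c0 : ℝ} {δ : B → ℝ}
    (hδ : ∀ l : B, (e l : ℝ) = l + δ l + c0) (hδ0 : ∀ l, 0 ≤ δ l)
    {S : Set ℝ} (hS : MeasurableSet S) (hSfin : volume S ≠ ∞) {t : ℝ} (ht : 0 ≤ t) :
    flux Ω B ((fun x => x - t) ⁻¹' S) δ = flux Ω B S δ := by
  have hcB : Countable B := hB.1.to_subtype
  have hVm := measurable_V (Ω := Ω) S hS
  have hVt : ∀ v, V Ω ((fun x => x - t) ⁻¹' S) v = V Ω S (v - t) := by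
    intro v
    unfold V
    congr 1
    funext y
    have : y + (v - t) = y + v - t := by ring
    rw [this]
    by_cases hy : y + v - t ∈ S
    · rw [indicator_of_mem hy, indicator_of_mem]
      exact hy
    · rw [indicator_of_notMem hy, indicator_of_notMem]
      exact hy
  -- change of variables on intervals
  have hshift : ∀ (f : ℝ → ℝ≥0∞) (p q s : ℝ),
      ∫⁻ h in Ioc p q, f (h - s) = ∫⁻ h in Ioc (p - s) (q - s), f h := by
    intro f p q s
    rw [← lintegral_indicator measurableSet_Ioc, ← lintegral_indicator measurableSet_Ioc]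
    rw [← lintegral_sub_right_eq_self (fun h => (Ioc (p - s) (q - s)).indicator (fun h => f h) h) s]
    congr 1
    funext h
    by_cases hh : h ∈ Ioc p q
    · rw [indicator_of_mem hh, indicator_of_mem]
      exact ⟨by linarith [hh.1], by linarith [hh.2]⟩
    · rw [indicator_of_notMem hh, indicator_of_notMem]
      intro hcon
      exact hh ⟨by linarith [hcon.1], by linarith [hcon.2]⟩
  have hterm : ∀ l : B, (∫⁻ h in Ioc 0 (δ l), V Ω ((fun x => x - t) ⁻¹' S) (l + h))
      + (∫⁻ h in Ioc (δ l - t) (δ l), V Ω S (l + h))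
      = (∫⁻ h in Ioc (-t) 0, V Ω S (l + h)) + ∫⁻ h in Ioc 0 (δ l), V Ω S (l + h) := by
    intro l
    have h1 : ∫⁻ h in Ioc 0 (δ l), V Ω ((fun x => x - t) ⁻¹' S) (l + h)
        = ∫⁻ h in Ioc (-t) (δ l - t), V Ω S (l + h) := by
      have h2 := hshift (fun h => V Ω S (l + h)) 0 (δ l) t
      rw [zero_sub] at h2
      rw [← h2]
      congr 1
      funext h
      rw [hVt]
      congr 1
      ring
    rw [h1]
    rw [← lintegral_union measurableSet_Ioc, ← lintegral_union measurableSet_Ioc,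
      Ioc_union_Ioc_eq_Ioc (by linarith [hδ0 l]) (by linarith),
      Ioc_union_Ioc_eq_Ioc (by linarith) (hδ0 l)]
    · rw [Set.disjoint_left]
      intro h hh1 hh2
      exact absurd hh1.2 (not_le.mpr hh2.1)
    · rw [Set.disjoint_left]
      intro h hh1 hh2
      exact absurd hh1.2 (not_le.mpr hh2.1)
  have hsum : flux Ω B ((fun x => x - t) ⁻¹' S) δ
      + ∑' l : B, (∫⁻ h in Ioc (δ l - t) (δ l), V Ω S (l + h))
      = (∑' l : B, ∫⁻ h in Ioc (-t) 0, V Ω S (l + h)) + flux Ω B S δ := by
    unfold flux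
    rw [← ENNReal.tsum_add, ← ENNReal.tsum_add]
    simp_rw [hterm]
  have hA1 : ∑' l : B, (∫⁻ h in Ioc (-t) 0, V Ω S (l + h)) = ENNReal.ofReal t * volume S := by
    have hm1 : ∀ l : B, AEMeasurable (fun h : ℝ => V Ω S (l + h))
        (volume.restrict (Ioc (-t) 0)) := fun l =>
      (hVm.comp (measurable_const.add measurable_id)).aemeasurable
    rw [← lintegral_tsum hm1]
    simp_rw [tsum_V hB hΩ hS]
    rw [lintegral_const, Measure.restrict_apply_univ, Real.volume_Ioc, mul_comm]
    congr 2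
    ring
  have hA2 : ∑' l : B, (∫⁻ h in Ioc (δ l - t) (δ l), V Ω S (l + h))
      = ENNReal.ofReal t * volume S := by
    have h1 : ∀ l : B, (∫⁻ h in Ioc (δ l - t) (δ l), V Ω S (l + h))
        = ∫⁻ h in Ioc (-t) 0, V Ω S ((e l : ℝ) + (h - c0)) := by
      intro l
      have h2 := hshift (fun h => V Ω S ((e l : ℝ) + (h - c0))) (δ l - t) (δ l) (δ l)
      have e1 : δ l - t - δ l = -t := by ring
      rw [e1, sub_self] at h2
      rw [← h2]
      congr 1
      funext h
      rw [hδ l]
      congr 1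
      ring
    simp_rw [h1]
    rw [e.tsum_eq (fun m : A => ∫⁻ h in Ioc (-t) 0, V Ω S ((m : ℝ) + (h - c0)))]
    have hcA : Countable A := hA.1.to_subtype
    have hm1 : ∀ m : A, AEMeasurable (fun h : ℝ => V Ω S ((m : ℝ) + (h - c0)))
        (volume.restrict (Ioc (-t) 0)) := fun m =>
      (hVm.comp (measurable_const.add (measurable_id.sub_const _))).aemeasurable
    rw [← lintegral_tsum hm1]
    simp_rw [tsum_V hA hΩ hS]
    rw [lintegral_const, Measure.restrict_apply_univ, Real.volume_Ioc, mul_comm]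
    congr 2
    ring
  rw [hA1, hA2, add_comm] at hsum
  exact (ENNReal.add_right_inj (ENNReal.mul_ne_top ENNReal.ofReal_ne_top hSfin)).mp hsum

/-- The tile at `j`. -/
def tile (Ω : Set ℝ) (j : ℝ) : Set ℝ := (fun x => x - j) ⁻¹' Ω

lemma measurableSet_tile (hΩ : MeasurableSet Ω) (j : ℝ) : MeasurableSet (tile Ω j) :=
  (measurable_id.sub_const j) hΩ

lemma volume_tile (j : ℝ) : volume (tile Ω j) = volume Ω := by
  unfold tile
  exact (measurePreserving_sub_right volume j).measure_preimage_equiv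
    (f := MeasurableEquiv.subRight j) Ω

lemma V_tile (hΩ : MeasurableSet Ω) (j h : ℝ) :
    V Ω (tile Ω j) (j + h) = volume {y | y ∈ Ω ∧ y - (-h) ∈ Ω} := by
  unfold V
  have hm : MeasurableSet {y : ℝ | y ∈ Ω ∧ y - (-h) ∈ Ω} :=
    hΩ.inter ((measurable_id.sub_const (-h)) hΩ)
  rw [← lintegral_indicator hΩ]
  have h1 : volume {y : ℝ | y ∈ Ω ∧ y - (-h) ∈ Ω}
      = ∫⁻ y, {y : ℝ | y ∈ Ω ∧ y - (-h) ∈ Ω}.indicator (fun _ => (1 : ℝ≥0∞)) y := by
    rw [lintegral_indicator hm]; simp
  rw [h1]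
  congr 1
  funext y
  have e1 : y + (j + h) ∈ tile Ω j ↔ y - (-h) ∈ Ω := by
    unfold tile
    rw [mem_preimage]
    have : y + (j + h) - j = y - (-h) := by ring
    rw [this]
  by_cases hy : y ∈ Ω
  · rw [indicator_of_mem hy]
    by_cases hy2 : y - (-h) ∈ Ω
    · rw [indicator_of_mem (e1.mpr hy2), indicator_of_mem (show y ∈ {y : ℝ | y ∈ Ω ∧ y - (-h) ∈ Ω} from ⟨hy, hy2⟩)]
    · rw [indicator_of_notMem (fun hh => hy2 (e1.mp hh)), indicator_of_notMem]
      exact fun hh => hy2 hh.2
  · rw [indicator_of_notMem hy, indicator_of_notMem]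
    exact fun hh => hy hh.1

lemma flux_tile_eq (hΩ : MeasurableSet Ω) (hfin : volume Ω ≠ ∞) (hB : TilesAtLevel 1 Ω B)
    (hA : TilesAtLevel 1 Ω A) (e : B ≃ A) {c0 : ℝ} {δ : B → ℝ}
    (hδ : ∀ l : B, (e l : ℝ) = l + δ l + c0) (hδ0 : ∀ l, 0 ≤ δ l) (j k : ℝ) :
    flux Ω B (tile Ω j) δ = flux Ω B (tile Ω k) δ := by
  wlog hjk : j ≤ k generalizing j k
  · exact (this k j (le_of_not_ge hjk)).symm
  have h1 := flux_translate hΩ hB hA e hδ hδ0 (measurableSet_tile hΩ j)
    (by rw [volume_tile]; exact hfin) (t := k - j) (by linarith)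
  rw [← h1]
  congr 1
  ext x
  unfold tile
  simp only [mem_preimage]
  have : x - (k - j) - j = x - k := by ring
  rw [this]

/-- The basic inequality for a displacement of small oscillation. -/
lemma displacement_ineq (hΩ : MeasurableSet Ω) (hfin : volume Ω ≠ ∞) (hB : TilesAtLevel 1 Ω B)
    (hA : TilesAtLevel 1 Ω A) (e : B ≃ A) {c0 : ℝ} {δ : B → ℝ}
    (hδ : ∀ l : B, (e l : ℝ) = l + δ l + c0) (hδ0 : ∀ l, 0 ≤ δ l) {D : ℝ} (hD : ∀ l, δ l ≤ D)
    {η : ℝ≥0∞} (hη : ∀ h : ℝ, |h| ≤ D → volume {y | y ∈ Ω ∧ y - h ∉ Ω} ≤ η) (j k : B) :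
    ENNReal.ofReal (δ k) * (volume Ω - η) ≤ ENNReal.ofReal (δ j) * volume Ω
      + ENNReal.ofReal D * η := by
  classical
  have hcB : Countable B := hB.1.to_subtype
  -- measure of the intersection of a tile with its translate
  have hsplit : ∀ h : ℝ, |h| ≤ D → ∀ i : B, volume Ω ≤ V Ω (tile Ω i) (i + h) + η := by
    intro h hh i
    rw [V_tile hΩ]
    calc volume Ω ≤ volume {y | y ∈ Ω ∧ y - (-h) ∈ Ω} + volume {y | y ∈ Ω ∧ y - (-h) ∉ Ω} := by
          refine le_trans (measure_mono ?_) (measure_union_le _ _)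
          intro y hy
          by_cases hy2 : y - (-h) ∈ Ω
          · left; exact ⟨hy, hy2⟩
          · right; exact ⟨hy, hy2⟩
      _ ≤ _ := by
          gcongr
          apply hη
          rw [abs_neg]; exact hh
  -- lower bound at `k`
  have hlow : ENNReal.ofReal (δ k) * (volume Ω - η) ≤ flux Ω B (tile Ω k) δ := by
    calc ENNReal.ofReal (δ k) * (volume Ω - η)
        = ∫⁻ h in Ioc 0 (δ k), (volume Ω - η) := by
          rw [lintegral_const, Measure.restrict_apply_univ, Real.volume_Ioc, mul_comm, sub_zero]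
      _ ≤ ∫⁻ h in Ioc 0 (δ k), V Ω (tile Ω k) (k + h) := by
          apply setLIntegral_mono' measurableSet_Ioc
          intro h hh
          rw [tsub_le_iff_right]
          apply hsplit
          rw [abs_of_pos hh.1]
          exact hh.2.trans (hD k)
      _ ≤ flux Ω B (tile Ω k) δ := by
          unfold flux
          exact ENNReal.le_tsum k
  -- upper bound at `j`
  have hup : flux Ω B (tile Ω j) δ ≤ ENNReal.ofReal (δ j) * volume Ω + ENNReal.ofReal D * η := by
    have hVm := measurable_V (Ω := Ω) (tile Ω j) (measurableSet_tile hΩ j)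
    have h1 : flux Ω B (tile Ω j) δ
        = ∫⁻ h in Ioc 0 D, ∑' l : B, (Ioc 0 (δ l)).indicator (fun h => V Ω (tile Ω j) (l + h)) h := by
      unfold flux
      have hm1 : ∀ l : B, AEMeasurable
          (fun h : ℝ => (Ioc 0 (δ l)).indicator (fun h => V Ω (tile Ω j) (l + h)) h)
          (volume.restrict (Ioc 0 D)) := fun l =>
        ((hVm.comp (measurable_const.add measurable_id)).indicator
          measurableSet_Ioc).aemeasurable
      rw [lintegral_tsum hm1]
      congr 1
      funext l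
      rw [lintegral_indicator measurableSet_Ioc, Measure.restrict_restrict measurableSet_Ioc]
      congr 2
      symm
      rw [inter_eq_left]
      exact Ioc_subset_Ioc_right (hD l)
    rw [h1]
    have h2 : ∀ h ∈ Ioc (0 : ℝ) D,
        ∑' l : B, (Ioc 0 (δ l)).indicator (fun h => V Ω (tile Ω j) (l + h)) h
        ≤ (Ioc 0 (δ j)).indicator (fun _ => volume Ω) h + η := by
      intro h hh
      by_cases hj : h ∈ Ioc 0 (δ j)
      · rw [indicator_of_mem hj]
        refine le_trans ?_ le_self_add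
        calc ∑' l : B, (Ioc 0 (δ l)).indicator (fun h => V Ω (tile Ω j) (l + h)) h
            ≤ ∑' l : B, V Ω (tile Ω j) (l + h) := by
              apply ENNReal.tsum_le_tsum
              intro l
              exact indicator_le_self _ _ _
          _ = volume Ω := by rw [tsum_V hB hΩ (measurableSet_tile hΩ j), volume_tile]
      · rw [indicator_of_notMem hj, zero_add]
        have h3 : (∑' l : B, (Ioc 0 (δ l)).indicator (fun h => V Ω (tile Ω j) (l + h)) h)
            + V Ω (tile Ω j) (j + h) ≤ volume Ω := by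
          rw [← volume_tile (Ω := Ω) (j : ℝ), ← tsum_V hB hΩ (measurableSet_tile hΩ j) h,
            ← tsum_ite_eq j (fun _ => V Ω (tile Ω j) (j + h)), ← ENNReal.tsum_add]
          apply ENNReal.tsum_le_tsum
          intro l
          by_cases hl : l = j
          · subst hl
            rw [indicator_of_notMem hj]
            simp
          · simp only [hl, if_false, add_zero]
            exact indicator_le_self _ _ _
        have h4 := hsplit h (by rw [abs_of_pos hh.1]; exact hh.2) j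
        have h5 : (∑' l : B, (Ioc 0 (δ l)).indicator (fun h => V Ω (tile Ω j) (l + h)) h)
            + V Ω (tile Ω j) (j + h) ≤ η + V Ω (tile Ω j) (j + h) := by
          refine h3.trans (h4.trans ?_)
          rw [add_comm]
        have hVfin : V Ω (tile Ω j) (j + h) ≠ ∞ := by
          rw [V_tile hΩ]
          refine ne_top_of_le_ne_top hfin (measure_mono ?_)
          intro y hy
          exact hy.1
        exact (ENNReal.add_le_add_iff_right hVfin).mp h5
    calc ∫⁻ h in Ioc 0 D, ∑' l : B,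
          (Ioc 0 (δ l)).indicator (fun h => V Ω (tile Ω j) (l + h)) h
        ≤ ∫⁻ h in Ioc 0 D, ((Ioc 0 (δ j)).indicator (fun _ => volume Ω) h + η) :=
          setLIntegral_mono' measurableSet_Ioc h2
      _ = (∫⁻ h in Ioc 0 D, (Ioc 0 (δ j)).indicator (fun _ => volume Ω) h)
          + ∫⁻ h in Ioc 0 D, η := by
          rw [lintegral_add_right _ measurable_const]
      _ ≤ ENNReal.ofReal (δ j) * volume Ω + ENNReal.ofReal D * η := by
          gcongr
          · refine (setLIntegral_le_lintegral _ _).trans ?_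
            rw [lintegral_indicator measurableSet_Ioc, lintegral_const,
              Measure.restrict_apply_univ, Real.volume_Ioc, mul_comm, sub_zero]
          · rw [lintegral_const, Measure.restrict_apply_univ, Real.volume_Ioc, mul_comm, sub_zero]
  rw [flux_tile_eq hΩ hfin hB hA e hδ hδ0 k j] at hlow
  exact hlow.trans hup

/-- **Rigidity.** Two level-one tilings by translates of `Ω` that are matched with a displacement
of small oscillation are translates of each other. -/
theorem rigidity (hΩ : MeasurableSet Ω) (hfin : volume Ω ≠ ∞) (hB : TilesAtLevel 1 Ω B)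
    (hA : TilesAtLevel 1 Ω A) (e : B ≃ A) {R : ℝ}
    (hosc : ∀ l l' : B, ((e l : ℝ) - l) - ((e l' : ℝ) - l') ≤ R)
    {η : ℝ≥0∞} (hη2 : 2 * η < volume Ω)
    (hη : ∀ h : ℝ, |h| ≤ R → volume {y | y ∈ Ω ∧ y - h ∉ Ω} ≤ η) :
    ∃ c : ℝ, ∀ l : B, (e l : ℝ) = l + c := by
  obtain ⟨l0, hl0⟩ := hB.nonempty
  set X : Set ℝ := range fun l : B => (e l : ℝ) - l with hX
  have hXne : X.Nonempty := ⟨_, ⟨l0, hl0⟩, rfl⟩
  have hXb : BddBelow X := by
    refine ⟨(e ⟨l0, hl0⟩ : ℝ) - l0 - R, ?_⟩
    rintro _ ⟨l, rfl⟩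
    have := hosc ⟨l0, hl0⟩ l
    simp only at this ⊢
    linarith
  have hXa : BddAbove X := by
    refine ⟨(e ⟨l0, hl0⟩ : ℝ) - l0 + R, ?_⟩
    rintro _ ⟨l, rfl⟩
    have := hosc l ⟨l0, hl0⟩
    simp only at this ⊢
    linarith
  set c0 := sInf X with hc0
  set D := sSup X - sInf X with hD
  have hmem : ∀ l : B, c0 ≤ (e l : ℝ) - l := fun l => csInf_le hXb ⟨l, rfl⟩
  have hmem2 : ∀ l : B, (e l : ℝ) - l ≤ sSup X := fun l => le_csSup hXa ⟨l, rfl⟩
  have hD0 : 0 ≤ D := by
    have h1 := hmem ⟨l0, hl0⟩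
    have h2 := hmem2 ⟨l0, hl0⟩
    linarith
  have hDR : D ≤ R := by
    have h1 : ∀ ε : ℝ, 0 < ε → D ≤ R + ε := by
      intro ε hε
      obtain ⟨_, ⟨l, rfl⟩, hl⟩ := exists_lt_of_lt_csSup hXne (show sSup X - ε / 2 < sSup X by linarith)
      obtain ⟨_, ⟨l', rfl⟩, hl'⟩ := exists_lt_of_csInf_lt hXne
        (show sInf X < sInf X + ε / 2 by linarith)
      have := hosc l l'
      simp only at hl hl'
      linarith
    exact le_of_forall_pos_le_add h1
  set δ : B → ℝ := fun l => (e l : ℝ) - l - c0 with hδ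
  have hδe : ∀ l : B, (e l : ℝ) = l + δ l + c0 := by intro l; simp only [hδ]; ring
  have hδ0 : ∀ l, 0 ≤ δ l := by intro l; simp only [hδ]; linarith [hmem l]
  have hδD : ∀ l, δ l ≤ D := by intro l; simp only [hδ]; linarith [hmem2 l]
  have hkey := displacement_ineq hΩ hfin hB hA e hδe hδ0 hδD
    (η := η) (fun h hh => hη h (hh.trans hDR))
  -- real form
  have hηfin : η ≠ ∞ := by
    intro hcon
    rw [hcon] at hη2
    simp at hη2
  set ω := (volume Ω).toReal with hω
  set q := η.toReal with hq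
  have hq2 : 2 * q < ω := by
    rw [hω, hq]
    have := (ENNReal.toReal_lt_toReal (ENNReal.mul_ne_top (by norm_num) hηfin) hfin).mpr hη2
    simpa [ENNReal.toReal_mul] using this
  have hq0 : 0 ≤ q := ENNReal.toReal_nonneg
  have hreal : ∀ j k : B, δ k * (ω - q) ≤ δ j * ω + D * q := by
    intro j k
    have h1 := hkey j k
    have hle : η ≤ volume Ω := by
      refine le_of_lt (lt_of_le_of_lt ?_ hη2)
      rw [two_mul]
      exact le_self_add
    have hv : volume Ω = ENNReal.ofReal ω := (ENNReal.ofReal_toReal hfin).symm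
    have hηv : η = ENNReal.ofReal q := (ENNReal.ofReal_toReal hηfin).symm
    rw [hv, hηv, ← ENNReal.ofReal_sub _ hq0, ← ENNReal.ofReal_mul (hδ0 k),
      ← ENNReal.ofReal_mul (hδ0 j), ← ENNReal.ofReal_mul hD0,
      ← ENNReal.ofReal_add (mul_nonneg (hδ0 j) (by linarith)) (mul_nonneg hD0 hq0)] at h1
    rwa [ENNReal.ofReal_le_ofReal_iff
      (add_nonneg (mul_nonneg (hδ0 j) (by linarith)) (mul_nonneg hD0 hq0))] at h1
  have hfinal : D * (ω - q) ≤ D * q := by
    apply le_of_forall_pos_le_add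
    intro ε hε
    have hωpos : 0 < ω := by linarith
    obtain ⟨_, ⟨k, rfl⟩, hk⟩ := exists_lt_of_lt_csSup hXne
      (show sSup X - ε / (2 * ω) < sSup X by
        have : 0 < ε / (2 * ω) := by positivity
        linarith)
    obtain ⟨_, ⟨j, rfl⟩, hj⟩ := exists_lt_of_csInf_lt hXne
      (show sInf X < sInf X + ε / (2 * ω) by
        have : 0 < ε / (2 * ω) := by positivity
        linarith)
    simp only at hk hj
    have h1 := hreal j k
    have h2 : D - ε / (2 * ω) ≤ δ k := by simp only [hδ]; linarith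
    have h3 : δ j ≤ ε / (2 * ω) := by simp only [hδ]; linarith
    have h4 : (D - ε / (2 * ω)) * (ω - q) ≤ δ k * (ω - q) :=
      mul_le_mul_of_nonneg_right h2 (by linarith)
    have h5 : δ j * ω ≤ ε / (2 * ω) * ω := mul_le_mul_of_nonneg_right h3 hωpos.le
    have h6 : ε / (2 * ω) * ω = ε / 2 := by field_simp
    have h7 : ε / (2 * ω) * (ω - q) ≤ ε / (2 * ω) * ω :=
      mul_le_mul_of_nonneg_left (by linarith) (by positivity)
    linarith
  have hD00 : D = 0 := by
    have : D * (ω - 2 * q) ≤ 0 := by linarith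
    have h1 : 0 < ω - 2 * q := by linarith
    have h2 : D ≤ 0 := by
      by_contra hcon
      push Not at hcon
      have := mul_pos hcon h1
      linarith
    linarith
  refine ⟨c0, ?_⟩
  intro l
  have h1 := hδ0 l
  have h2 := hδD l
  rw [hD00] at h2
  have h3 : δ l = 0 := le_antisymm h2 h1
  rw [hδe l, h3, add_zero]

end TilingLine
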