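import Pool.Agent.Helper32.Tiling.Current
import Pool.Agent.Helper32.Tiling.Rigidity

/-!
# Smallness of the current for sets with a finite first moment
-/

open MeasureTheory Set Filter Topology
open scoped ENNReal symmDiff

namespace TilingLine

variable {Ω A B Λ : Set ℝ}

/-- The monotone observable. -/
noncomputable def obs (y : ℝ) : ℝ := 1 / 2 + Real.arctan y / Real.pi

lemma obs_strictMono : StrictMono obs := by
  intro x y hxy
  unfold obs
  have := Real.arctan_strictMono hxy
  have hpi := Real.pi_pos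
  have : Real.arctan x / Real.pi < Real.arctan y / Real.pi := by gcongr
  linarith

lemma obs_nonneg (y : ℝ) : 0 ≤ obs y := by
  unfold obs
  have h1 := (Real.neg_pi_div_two_lt_arctan y).le
  have hpi := Real.pi_pos
  have : -(1 / 2) ≤ Real.arctan y / Real.pi := by
    rw [le_div_iff₀ hpi]; linarith
  linarith

lemma obs_le_one (y : ℝ) : obs y ≤ 1 := by
  unfold obs
  have h1 := (Real.arctan_lt_pi_div_two y).le
  have hpi := Real.pi_pos
  have : Real.arctan y / Real.pi ≤ 1 / 2 := by
    rw [div_le_iff₀ hpi]; linarith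
  linarith

lemma obs_lip (x y : ℝ) : |obs x - obs y| ≤ |x - y| := by
  have h1 : |Real.arctan x - Real.arctan y| ≤ |x - y| := by
    have h2 := Convex.norm_image_sub_le_of_norm_hasDerivWithin_le (f := Real.arctan)
      (f' := fun x => 1 / (1 + x ^ 2)) (s := univ) (C := 1) (x := y) (y := x)
      (fun z _ => (Real.hasDerivAt_arctan z).hasDerivWithinAt)
      (fun z _ => by
        rw [Real.norm_eq_abs, abs_of_pos (by positivity), div_le_one (by positivity)]
        nlinarith [sq_nonneg z]) convex_univ (mem_univ _) (mem_univ _)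
    simpa [Real.norm_eq_abs] using h2
  have hpi : 1 ≤ Real.pi := by linarith [Real.pi_gt_three]
  have h3 : obs x - obs y = (Real.arctan x - Real.arctan y) / Real.pi := by
    unfold obs; ring
  rw [h3, abs_div, abs_of_pos Real.pi_pos, div_le_iff₀ Real.pi_pos]
  calc |Real.arctan x - Real.arctan y| ≤ |x - y| * 1 := by rw [mul_one]; exact h1
    _ ≤ |x - y| * Real.pi := by gcongr

/-- Tails of an integral over `Ω`. -/
lemma exists_tail_le {g : ℝ → ℝ≥0∞} (hg : Measurable g) (hgfin : ∫⁻ y in Ω, g y ≠ ∞)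
    {κ : ℝ≥0∞} (hκ : 0 < κ) :
    ∃ M : ℝ, 0 ≤ M ∧ ∫⁻ y in Ω, {y : ℝ | M < |y|}.indicator g y ≤ κ := by
  have hms : ∀ n : ℕ, MeasurableSet {y : ℝ | (n : ℝ) < |y|} := fun n =>
    measurableSet_lt measurable_const (measurable_id.abs)
  have h1 : Tendsto (fun n : ℕ => ∫⁻ y in Ω, {y : ℝ | (n : ℝ) < |y|}.indicator g y) atTop
      (𝓝 (∫⁻ y in Ω, (0 : ℝ≥0∞))) := by
    apply tendsto_lintegral_of_dominated_convergence g
    · intro n
      exact hg.indicator (hms n)
    · intro n
      exact Eventually.of_forall fun y => indicator_le_self _ _ _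
    · exact hgfin
    · refine Eventually.of_forall fun y => ?_
      obtain ⟨N, hN⟩ := exists_nat_gt |y|
      apply tendsto_const_nhds.congr'
      filter_upwards [eventually_ge_atTop N] with n hn
      rw [indicator_of_notMem]
      simp only [Set.mem_ofPred_eq, not_lt]
      have : (N : ℝ) ≤ n := by exact_mod_cast hn
      linarith
  rw [lintegral_zero, ENNReal.tendsto_nhds_zero] at h1
  obtain ⟨n, hn⟩ := (h1 κ hκ).exists
  exact ⟨n, Nat.cast_nonneg n, hn⟩

lemma curDens_le_one {a b : ℝ → ℝ} (x p : ℝ) : curDens obs a b x p ≤ 1 := by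
  unfold curDens
  have h1 := obs_nonneg (p - a p)
  have h2 := obs_nonneg (p - b p)
  have h3 := obs_le_one (p - a p)
  have h4 := obs_le_one (p - b p)
  by_cases h5 : x < a p <;> by_cases h6 : x < b p <;> simp only [h5, h6, if_true, if_false] <;>
    linarith

lemma curDens_le_abs {a b : ℝ → ℝ} (x p : ℝ) : curDens obs a b x p ≤ |a p - b p| := by
  unfold curDens
  have h1 := obs_lip (p - b p) (p - a p)
  have e1 : p - b p - (p - a p) = a p - b p := by ring
  rw [e1] at h1
  have h2 := abs_le.mp h1
  have h0 := abs_nonneg (a p - b p)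
  by_cases h5 : x < a p <;> by_cases h6 : x < b p <;> simp only [h5, h6, if_true, if_false] <;>
    linarith

/-- Only long jumps contribute far from the cut. -/
lemma curDens_far {a b : ℝ → ℝ} (p : ℝ) (h1 : ¬ |p| ≤ |p - a p|) (h2 : ¬ |p| ≤ |p - b p|) :
    curDens obs a b 0 p = 0 := by
  unfold curDens
  push Not at h1 h2
  have ha : 0 < a p ↔ 0 < p := by
    rcases le_or_gt p 0 with hp | hp
    · rw [abs_of_nonpos hp] at h1
      have h3 := neg_abs_le (p - a p)
      constructor
      · intro h; linarith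
      · intro h; linarith
    · rw [abs_of_pos hp] at h1
      have h3 := le_abs_self (p - a p)
      constructor
      · intro _; exact hp
      · intro _; linarith
  have hb : 0 < b p ↔ 0 < p := by
    rcases le_or_gt p 0 with hp | hp
    · rw [abs_of_nonpos hp] at h2
      have h3 := neg_abs_le (p - b p)
      constructor
      · intro h; linarith
      · intro h; linarith
    · rw [abs_of_pos hp] at h2
      have h3 := le_abs_self (p - b p)
      constructor
      · intro _; exact hp
      · intro _; linarith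
  by_cases hp : 0 < p
  · simp [ha.mpr hp, hb.mpr hp]
  · simp [mt ha.mp hp, mt hb.mp hp]

/-- The measure of the set of points `p` far from the origin which are even farther from the
position of their tile. -/
lemma lintegral_far_le {a : ℝ → ℝ} (ha : TileMap Ω A a) (hA : TilesAtLevel 1 Ω A)
    (hΩ : MeasurableSet Ω) {r : ℝ} (hr : 0 < r)
    (hsep : ∀ l ∈ A, ∀ l' ∈ A, l ≠ l' → r < |l - l'|) (M : ℝ) :
    ∫⁻ p, {p : ℝ | M < |p| ∧ |p| ≤ |p - a p|}.indicator (fun _ => (1 : ℝ≥0∞)) p
      ≤ ∫⁻ y in Ω, {y : ℝ | M < |y|}.indicator (fun y => ENNReal.ofReal (2 * |y| / r + 1)) y := by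
  classical
  have hcA : Countable A := hA.1.to_subtype
  have hms : MeasurableSet {p : ℝ | M < |p| ∧ |p| ≤ |p - a p|} :=
    (measurableSet_lt measurable_const measurable_id.abs).inter
      (measurableSet_le measurable_id.abs (measurable_id.sub ha.meas).abs)
  rw [hA.lintegral_eq hΩ (measurable_const.indicator hms)]
  have h1 : ∀ l : A, ∫⁻ y in Ω, {p : ℝ | M < |p| ∧ |p| ≤ |p - a p|}.indicator
      (fun _ => (1 : ℝ≥0∞)) (y + l)
      ≤ ∫⁻ y in Ω, {y : ℝ | M < |y|}.indicator (fun _ => (1 : ℝ≥0∞)) y
        * (Icc (-y - |y|) (-y + |y|)).indicator (fun _ => (1 : ℝ≥0∞)) (l : ℝ) := by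
    intro l
    apply lintegral_mono_ae
    filter_upwards [ha.ae_tile l.2 hΩ] with y hy
    by_cases hmem : y + l ∈ {p : ℝ | M < |p| ∧ |p| ≤ |p - a p|}
    · rw [indicator_of_mem hmem]
      obtain ⟨h2, h3⟩ := hmem
      rw [hy, add_sub_cancel_right] at h3
      have h4 : y ∈ {y : ℝ | M < |y|} := lt_of_lt_of_le h2 h3
      have h5 : (l : ℝ) ∈ Icc (-y - |y|) (-y + |y|) := by
        have := abs_le.mp h3
        exact ⟨by linarith, by linarith⟩
      rw [indicator_of_mem h4, indicator_of_mem h5, one_mul]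
    · rw [indicator_of_notMem hmem]
      exact bot_le
  refine (ENNReal.tsum_le_tsum h1).trans ?_
  have hm1 : ∀ l : A, AEMeasurable (fun y : ℝ =>
      {y : ℝ | M < |y|}.indicator (fun _ => (1 : ℝ≥0∞)) y
        * (Icc (-y - |y|) (-y + |y|)).indicator (fun _ => (1 : ℝ≥0∞)) (l : ℝ))
      (volume.restrict Ω) := by
    intro l
    apply Measurable.aemeasurable
    apply Measurable.mul
    · exact measurable_const.indicator (measurableSet_lt measurable_const measurable_id.abs)
    · have : (fun y : ℝ => (Icc (-y - |y|) (-y + |y|)).indicator (fun _ => (1 : ℝ≥0∞)) (l : ℝ))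
          = {y : ℝ | -y - |y| ≤ l ∧ (l : ℝ) ≤ -y + |y|}.indicator (fun _ => (1 : ℝ≥0∞)) := by
        funext y
        by_cases hy : (l : ℝ) ∈ Icc (-y - |y|) (-y + |y|)
        · rw [indicator_of_mem hy, indicator_of_mem]
          exact hy
        · rw [indicator_of_notMem hy, indicator_of_notMem]
          exact hy
      rw [this]
      exact measurable_const.indicator
        ((measurableSet_le ((measurable_id.neg).sub measurable_id.abs) measurable_const).inter
          (measurableSet_le measurable_const ((measurable_id.neg).add measurable_id.abs)))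
  rw [← lintegral_tsum hm1]
  apply lintegral_mono
  intro y
  show ∑' l : A, _ ≤ _
  rw [ENNReal.tsum_mul_left]
  by_cases hy : y ∈ {y : ℝ | M < |y|}
  · rw [indicator_of_mem hy, indicator_of_mem hy, one_mul]
    have h0 := abs_nonneg y
    refine (tsum_indicator_le hr hA.1 hsep (c := -y - |y|) (d := -y + |y|) (by linarith)).trans ?_
    apply ENNReal.ofReal_le_ofReal
    apply le_of_eq
    congr 2
    ring
  · rw [indicator_of_notMem hy, zero_mul]
    exact bot_le

/-- The measure of the set of points near the origin with a large local coordinate. -/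
lemma tsum_near_le (hA : TilesAtLevel 1 Ω A) {r : ℝ} (hr : 0 < r)
    (hsep : ∀ l ∈ A, ∀ l' ∈ A, l ≠ l' → r < |l - l'|) {M : ℝ} (hM : 0 ≤ M) {g : ℝ → ℝ≥0∞}
    (hg : Measurable g) :
    ∑' l : A, ∫⁻ y in Ω, {p : ℝ | |p| ≤ M}.indicator (fun _ => (1 : ℝ≥0∞)) (y + l) * g y
      ≤ ENNReal.ofReal (2 * M / r + 1) * ∫⁻ y in Ω, g y := by
  classical
  have hcA : Countable A := hA.1.to_subtype
  have hm1 : ∀ l : A, AEMeasurable (fun y : ℝ =>
      {p : ℝ | |p| ≤ M}.indicator (fun _ => (1 : ℝ≥0∞)) (y + l) * g y) (volume.restrict Ω) := by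
    intro l
    apply Measurable.aemeasurable
    exact ((measurable_const.indicator (measurableSet_le measurable_id.abs
      measurable_const)).comp (measurable_id.add_const _)).mul hg
  rw [← lintegral_tsum hm1, ← lintegral_const_mul _ hg]
  apply lintegral_mono
  intro y
  show ∑' l : A, _ ≤ ENNReal.ofReal (2 * M / r + 1) * g y
  rw [ENNReal.tsum_mul_right]
  gcongr
  have h1 : ∀ l : A, {p : ℝ | |p| ≤ M}.indicator (fun _ => (1 : ℝ≥0∞)) (y + l)
      = (Icc (-y - M) (-y + M)).indicator (fun _ => (1 : ℝ≥0∞)) (l : ℝ) := by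
    intro l
    by_cases hl : y + l ∈ {p : ℝ | |p| ≤ M}
    · rw [indicator_of_mem hl, indicator_of_mem]
      have := abs_le.mp (show |y + l| ≤ M from hl)
      exact ⟨by linarith, by linarith⟩
    · rw [indicator_of_notMem hl, indicator_of_notMem]
      intro hcon
      apply hl
      show |y + l| ≤ M
      rw [abs_le]
      exact ⟨by linarith [hcon.1], by linarith [hcon.2]⟩
  simp_rw [h1]
  refine (tsum_indicator_le hr hA.1 hsep (c := -y - M) (d := -y + M) (by linarith)).trans ?_
  apply ENNReal.ofReal_le_ofReal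
  apply le_of_eq
  congr 2
  ring

/-- Smallness of the current for tilings that are close in a large window. -/
theorem exists_cur_le (hΩ : MeasurableSet Ω) (h0 : volume Ω ≠ 0) (hfin : volume Ω ≠ ∞)
    (hmom : ∫⁻ y in Ω, ENNReal.ofReal |y| ≠ ∞) {r : ℝ} (hr : 0 < r) {κ : ℝ≥0∞} (hκ : 0 < κ)
    (hκfin : κ ≠ ∞) :
    ∃ M' : ℝ, ∃ ε : ℝ, 0 < ε ∧ ∀ A B : Set ℝ, ∀ a b : ℝ → ℝ, TilesAtLevel 1 Ω A →
      TilesAtLevel 1 Ω B → TileMap Ω A a → TileMap Ω B b →
      (∀ l ∈ A, ∀ l' ∈ A, l ≠ l' → r < |l - l'|) →
      (∀ l ∈ B, ∀ l' ∈ B, l ≠ l' → r < |l - l'|) →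
      (∀ α ∈ A, |α| ≤ M' → ∃ β ∈ B, |α - β| ≤ ε) → cur obs a b 0 ≤ κ := by
  classical
  set κ' := κ / 5 with hκ'
  have hκ'pos : 0 < κ' := ENNReal.div_pos hκ.ne' (by norm_num)
  -- choose `M`
  have hgm : Measurable fun y : ℝ => ENNReal.ofReal (2 * |y| / r + 1) := by fun_prop
  have hgfin : ∫⁻ y in Ω, ENNReal.ofReal (2 * |y| / r + 1) ≠ ∞ := by
    have h1 : ∀ y : ℝ, ENNReal.ofReal (2 * |y| / r + 1)
        = ENNReal.ofReal (2 / r) * ENNReal.ofReal |y| + 1 := by
      intro y
      rw [ENNReal.ofReal_add (by positivity) zero_le_one, ENNReal.ofReal_one,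
        ← ENNReal.ofReal_mul (by positivity)]
      congr 2
      ring
    simp_rw [h1]
    rw [lintegral_add_right _ measurable_const, lintegral_const_mul _ (by fun_prop)]
    apply ENNReal.add_ne_top.mpr
    refine ⟨ENNReal.mul_ne_top ENNReal.ofReal_ne_top hmom, ?_⟩
    simpa using hfin
  obtain ⟨M, hM0, hM⟩ := exists_tail_le (Ω := Ω) hgm hgfin hκ'pos
  -- choose `M2`
  have hc1 : ENNReal.ofReal (2 * M / r + 1) ≠ ∞ := ENNReal.ofReal_ne_top
  have hc1' : ENNReal.ofReal (2 * M / r + 1) ≠ 0 := by
    rw [ENNReal.ofReal_ne_zero_iff]; positivity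
  have hpos2 : 0 < κ' / ENNReal.ofReal (2 * M / r + 1) := ENNReal.div_pos hκ'pos.ne' hc1
  obtain ⟨M2, hM20, hM2⟩ := exists_tail_le (Ω := Ω) (g := fun _ => (1 : ℝ≥0∞)) measurable_const
    (by simpa using hfin) hpos2
  -- choose `ε`
  set c2 := ENNReal.ofReal (2 * (M + M2) / r + 1) with hc2
  have hc2fin : c2 ≠ ∞ := ENNReal.ofReal_ne_top
  have hpos3 : 0 < κ' / c2 := ENNReal.div_pos hκ'pos.ne' hc2fin
  obtain ⟨ε1, hε1, hε1s⟩ := exists_small_shift hΩ hfin hpos3
  have hκ'fin : κ' ≠ ∞ := ENNReal.div_ne_top hκfin (by norm_num)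
  set ε2 : ℝ := κ'.toReal / (2 * M + 1) with hε2
  have hκ'r : 0 < κ'.toReal := ENNReal.toReal_pos hκ'pos.ne' hκ'fin
  have hε2pos : 0 < ε2 := by positivity
  set ε := min ε1 ε2 with hε
  have hεpos : 0 < ε := lt_min hε1 hε2pos
  refine ⟨M + M2, ε, hεpos, ?_⟩
  intro A B a b hA hB ha hb hsA hsB hmatch
  have hcA : Countable A := hA.1.to_subtype
  have hmc : Measurable fun p => ENNReal.ofReal (curDens obs a b 0 p) :=
    ENNReal.measurable_ofReal.comp (measurable_curDens obs_strictMono.monotone.measurable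
      ha.meas hb.meas 0)
  -- pointwise splitting
  have hpt : ∀ p, ENNReal.ofReal (curDens obs a b 0 p)
      ≤ ({p : ℝ | M < |p| ∧ |p| ≤ |p - a p|}.indicator (fun _ => (1 : ℝ≥0∞)) p
        + {p : ℝ | M < |p| ∧ |p| ≤ |p - b p|}.indicator (fun _ => (1 : ℝ≥0∞)) p)
        + {p : ℝ | |p| ≤ M}.indicator (fun p => ENNReal.ofReal (curDens obs a b 0 p)) p := by
    intro p
    by_cases hp : |p| ≤ M
    · have : p ∈ {p : ℝ | |p| ≤ M} := hp
      rw [indicator_of_mem this]
      exact le_add_self
    · push Not at hp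
      by_cases h1 : |p| ≤ |p - a p|
      · have h3 : p ∈ {p : ℝ | M < |p| ∧ |p| ≤ |p - a p|} := ⟨hp, h1⟩
        rw [indicator_of_mem h3]
        refine le_trans ?_ le_self_add
        refine le_trans ?_ le_self_add
        rw [ENNReal.ofReal_le_one]
        exact curDens_le_one 0 p
      · by_cases h2 : |p| ≤ |p - b p|
        · have h3 : p ∈ {p : ℝ | M < |p| ∧ |p| ≤ |p - b p|} := ⟨hp, h2⟩
          rw [indicator_of_mem h3]
          refine le_trans ?_ le_self_add
          refine le_trans ?_ le_add_self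
          rw [ENNReal.ofReal_le_one]
          exact curDens_le_one 0 p
        · rw [curDens_far p h1 h2]
          simp
  have hmsa : MeasurableSet {p : ℝ | M < |p| ∧ |p| ≤ |p - a p|} :=
    (measurableSet_lt measurable_const measurable_id.abs).inter
      (measurableSet_le measurable_id.abs (measurable_id.sub ha.meas).abs)
  have hmsb : MeasurableSet {p : ℝ | M < |p| ∧ |p| ≤ |p - b p|} :=
    (measurableSet_lt measurable_const measurable_id.abs).inter
      (measurableSet_le measurable_id.abs (measurable_id.sub hb.meas).abs)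
  have hmsM : MeasurableSet {p : ℝ | |p| ≤ M} := measurableSet_le measurable_id.abs measurable_const
  have hfar_a := (lintegral_far_le ha hA hΩ hr hsA M).trans hM
  have hfar_b := (lintegral_far_le hb hB hΩ hr hsB M).trans hM
  -- the part near the cut
  have hnear : ∫⁻ p, {p : ℝ | |p| ≤ M}.indicator
      (fun p => ENNReal.ofReal (curDens obs a b 0 p)) p ≤ 3 * κ' := by
    choose! βf hβf1 hβf2 using hmatch
    rw [hA.lintegral_eq hΩ (hmc.indicator hmsM)]
    have hterm : ∀ l : A, ∫⁻ y in Ω, {p : ℝ | |p| ≤ M}.indicator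
        (fun p => ENNReal.ofReal (curDens obs a b 0 p)) (y + l)
        ≤ ((∫⁻ y in Ω, {p : ℝ | |p| ≤ M}.indicator (fun _ => (1 : ℝ≥0∞)) (y + l)
              * ENNReal.ofReal ε)
          + (∫⁻ y in Ω, {p : ℝ | |p| ≤ M}.indicator (fun _ => (1 : ℝ≥0∞)) (y + l)
              * {y : ℝ | M2 < |y|}.indicator (fun _ => (1 : ℝ≥0∞)) y))
          + (Icc (-(M + M2)) (M + M2)).indicator (fun _ => (1 : ℝ≥0∞)) (l : ℝ) * (κ' / c2) := by
      intro l
      have hmI : Measurable fun y : ℝ =>
          {p : ℝ | |p| ≤ M}.indicator (fun _ => (1 : ℝ≥0∞)) (y + l) :=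
        (measurable_const.indicator hmsM).comp (measurable_id.add_const _)
      by_cases hl : |(l : ℝ)| ≤ M + M2
      · have hlI : (l : ℝ) ∈ Icc (-(M + M2)) (M + M2) := by
          have := abs_le.mp hl
          exact this
        rw [indicator_of_mem hlI, one_mul]
        have h1 : volume {y | y ∈ Ω ∧ y - (βf l - l) ∉ Ω} ≤ κ' / c2 := by
          apply hε1s
          have := hβf2 l l.2 hl
          rw [abs_sub_comm]
          exact this.trans (min_le_left _ _)
        have hmsN : MeasurableSet {y : ℝ | y ∈ Ω ∧ y - (βf l - l) ∉ Ω} :=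
          hΩ.inter ((measurable_id.sub_const _) hΩ).compl
        have h2 : ∫⁻ y in Ω, {y : ℝ | y ∈ Ω ∧ y - (βf l - l) ∉ Ω}.indicator
            (fun _ => (1 : ℝ≥0∞)) y ≤ κ' / c2 := by
          refine le_trans ?_ h1
          refine (setLIntegral_le_lintegral _ _).trans ?_
          rw [lintegral_indicator hmsN]
          simp
        refine le_trans ?_ (add_le_add le_rfl h2)
        rw [← lintegral_add_left (hmI.mul_const _), ← lintegral_add_right _
          (measurable_const.indicator hmsN)]
        apply lintegral_mono_ae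
        have hb1 := (measurePreserving_add_right volume (l : ℝ)).quasiMeasurePreserving.ae hb.ae
        filter_upwards [ha.ae_tile l.2 hΩ, ae_restrict_of_ae hb1, ae_restrict_mem hΩ] with
          y hy hby hyΩ
        by_cases hyM : y + l ∈ {p : ℝ | |p| ≤ M}
        · rw [indicator_of_mem hyM, indicator_of_mem hyM, one_mul, one_mul]
          by_cases hgood : y - (βf l - l) ∈ Ω
          · have hbe : βf l = b (y + l) := by
              apply hby.2.2 _ (hβf1 l l.2 hl)
              have : y + l - βf l = y - (βf l - l) := by ring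
              rw [this]; exact hgood
            have h3 : curDens obs a b 0 (y + l) ≤ ε := by
              refine (curDens_le_abs 0 (y + l)).trans ?_
              rw [hy, ← hbe]
              exact hβf2 l l.2 hl
            refine (ENNReal.ofReal_le_ofReal h3).trans ?_
            rw [add_assoc]
            exact le_self_add
          · have h4 : y ∈ {y : ℝ | y ∈ Ω ∧ y - (βf l - l) ∉ Ω} := ⟨hyΩ, hgood⟩
            rw [indicator_of_mem h4]
            refine le_trans ?_ le_add_self
            rw [ENNReal.ofReal_le_one]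
            exact curDens_le_one 0 _
        · rw [indicator_of_notMem hyM]
          exact bot_le
      · push Not at hl
        refine le_trans ?_ le_self_add
        refine le_trans ?_ le_add_self
        apply lintegral_mono
        intro y
        beta_reduce
        by_cases hyM : y + l ∈ {p : ℝ | |p| ≤ M}
        · have h3 : y ∈ {y : ℝ | M2 < |y|} := by
            have h4 : |y + l| ≤ M := hyM
            show M2 < |y|
            have h5 : |(l : ℝ)| ≤ |y + l| + |y| := by
              have := abs_sub (y + l) y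
              rw [add_sub_cancel_left] at this
              exact this
            linarith
          rw [indicator_of_mem hyM, indicator_of_mem hyM, indicator_of_mem h3, one_mul,
            ENNReal.ofReal_le_one]
          exact curDens_le_one 0 _
        · rw [indicator_of_notMem hyM]
          exact bot_le
    refine (ENNReal.tsum_le_tsum hterm).trans ?_
    rw [ENNReal.tsum_add, ENNReal.tsum_add]
    have hp1 : ∑' l : A, ∫⁻ y in Ω, {p : ℝ | |p| ≤ M}.indicator (fun _ => (1 : ℝ≥0∞)) (y + l)
        * ENNReal.ofReal ε ≤ κ' := by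
      have hm2 : Measurable fun p : ℝ => {p : ℝ | |p| ≤ M}.indicator (fun _ => (1 : ℝ≥0∞)) p
          * ENNReal.ofReal ε := (measurable_const.indicator hmsM).mul_const _
      rw [← hA.lintegral_eq hΩ hm2, lintegral_mul_const _ (measurable_const.indicator hmsM),
        lintegral_indicator hmsM]
      have h5 : {p : ℝ | |p| ≤ M} = Icc (-M) M := by
        ext p; simp [abs_le]
      rw [h5]
      simp only [lintegral_const, Measure.restrict_apply_univ, one_mul, Real.volume_Icc]
      rw [← ENNReal.ofReal_mul (by linarith)]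
      rw [← ENNReal.ofReal_toReal hκ'fin]
      apply ENNReal.ofReal_le_ofReal
      calc (M - -M) * ε ≤ (M - -M) * ε2 := by
            apply mul_le_mul_of_nonneg_left (min_le_right _ _) (by linarith)
        _ ≤ (2 * M + 1) * ε2 := by
            apply mul_le_mul_of_nonneg_right _ hε2pos.le
            linarith
        _ = κ'.toReal := by
            rw [hε2]; field_simp
    have hp2 : ∑' l : A, ∫⁻ y in Ω, {p : ℝ | |p| ≤ M}.indicator (fun _ => (1 : ℝ≥0∞)) (y + l)
        * {y : ℝ | M2 < |y|}.indicator (fun _ => (1 : ℝ≥0∞)) y ≤ κ' := by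
      refine (tsum_near_le hA hr hsA hM0 (measurable_const.indicator
        (measurableSet_lt measurable_const measurable_id.abs))).trans ?_
      refine (mul_le_mul_right hM2 _).trans ?_
      rw [ENNReal.mul_div_cancel hc1' hc1]
    have hp3 : ∑' l : A, (Icc (-(M + M2)) (M + M2)).indicator (fun _ => (1 : ℝ≥0∞)) (l : ℝ)
        * (κ' / c2) ≤ κ' := by
      rw [ENNReal.tsum_mul_right]
      have h6 := tsum_indicator_le hr hA.1 hsA (c := -(M + M2)) (d := M + M2) (by linarith)
      have h7 : ENNReal.ofReal ((M + M2 - -(M + M2)) / r + 1) = c2 := by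
        rw [hc2]; congr 2; ring
      rw [h7] at h6
      refine (mul_le_mul_left h6 _).trans ?_
      rw [ENNReal.mul_div_cancel _ hc2fin]
      rw [hc2, ENNReal.ofReal_ne_zero_iff]; positivity
    calc _ ≤ κ' + κ' + κ' := add_le_add (add_le_add hp1 hp2) hp3
      _ = 3 * κ' := by ring
  unfold cur
  calc ∫⁻ p, ENNReal.ofReal (curDens obs a b 0 p)
      ≤ ∫⁻ p, (({p : ℝ | M < |p| ∧ |p| ≤ |p - a p|}.indicator (fun _ => (1 : ℝ≥0∞)) p
        + {p : ℝ | M < |p| ∧ |p| ≤ |p - b p|}.indicator (fun _ => (1 : ℝ≥0∞)) p)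
        + {p : ℝ | |p| ≤ M}.indicator (fun p => ENNReal.ofReal (curDens obs a b 0 p)) p) :=
        lintegral_mono hpt
    _ = _ := by
        rw [lintegral_add_right _ (hmc.indicator hmsM),
          lintegral_add_left (measurable_const.indicator hmsa)]
    _ ≤ κ' + κ' + 3 * κ' := add_le_add (add_le_add hfar_a hfar_b) hnear
    _ = 5 * κ' := by ring
    _ = κ := by rw [hκ', ENNReal.mul_div_cancel (by norm_num) (by norm_num)]

end TilingLine
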