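import Pool.Agent.Helper32.Tiling.Periodic

/-!
# Level-one tilings of the line by sets with a finite first moment are periodic

Let `Ω ⊆ ℝ` be measurable with `0 < mes Ω < ∞` and `∫_Ω |x| dx < ∞` (no boundedness is assumed).
If `1_Ω` tiles at level one with `Λ`, then `Λ` is a finite union of translates of one arithmetic
progression.

Idea of the proof. The set `-Ω` tiles with `Λ` as well. Hence for two tilings `A`, `B` by
translates of `Ω` and a bounded increasing function `u`, the quantity
`∫ |u(p - b(p)) - u(p - a(p))| 1[x lies between a(p) and b(p)] dp`, where `a(p)`, `b(p)` are the
positions of the tiles covering `p`, does not depend on the cut `x`. It is finite and continuous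
in the pair of tilings when the first moment is finite, and it controls the distance of the two
tilings at every place of the line. So two translates of `Λ` that agree closely in a large window
are uniformly close, and then a flux argument shows that they are translates of each other.
-/

open MeasureTheory TilingLine
open scoped ENNReal

namespace Pool.Agent.Results.MP_793d1e_an.FirstMomentPeriodic

theorem result (Ω Λ : Set ℝ) (hΩ : MeasurableSet Ω) (h0 : volume Ω ≠ 0) (hfin : volume Ω ≠ ∞)
    (hmom : ∫⁻ x in Ω, ENNReal.ofReal |x| < ∞) (hΛ : TilesAtLevel 1 Ω Λ) :
    PeriodicStructure Λ :=
  periodicStructure_of_firstMoment hΩ h0 hfin hmom.ne hΛ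

end Pool.Agent.Results.MP_793d1e_an.FirstMomentPeriodic
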