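import Pool.Agent.Helper32.Tiling.Basic

/-!
# Level one tilings: tile map, reversed tiling, conservation law
-/

open MeasureTheory Set Filter Topology
open scoped ENNReal

namespace TilingLine

variable {Ω Λ : Set ℝ}

lemma exists_unique_of_tsum {x : ℝ}
    (hx : ∑' l : Λ, Ω.indicator (fun _ => (1 : ℝ≥0∞)) (x - l) = 1) :
    ∃ l ∈ Λ, x - l ∈ Ω ∧ ∀ l' ∈ Λ, x - l' ∈ Ω → l' = l := by
  classical
  have h1 : ∃ l ∈ Λ, x - l ∈ Ω := by
    by_contra hcon
    push Not at hcon
    have : ∑' l : Λ, Ω.indicator (fun _ => (1 : ℝ≥0∞)) (x - l) = 0 := by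
      rw [ENNReal.tsum_eq_zero]
      intro l
      exact indicator_of_notMem (hcon l l.2) _
    rw [this] at hx
    exact zero_ne_one hx
  obtain ⟨l, hl, hxl⟩ := h1
  refine ⟨l, hl, hxl, ?_⟩
  intro l' hl' hxl'
  by_contra hne
  have h2 := ENNReal.sum_le_tsum (f := fun l : Λ => Ω.indicator (fun _ => (1 : ℝ≥0∞)) (x - l))
    ({⟨l, hl⟩, ⟨l', hl'⟩} : Finset Λ)
  rw [hx, Finset.sum_pair (by simpa [Subtype.ext_iff] using fun h => hne h.symm)] at h2
  simp only [indicator_of_mem hxl, indicator_of_mem hxl'] at h2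
  norm_num at h2

/-- A measurable choice of the tile that covers the point `p`. -/
structure TileMap (Ω Λ : Set ℝ) (a : ℝ → ℝ) : Prop where
  meas : Measurable a
  ae : ∀ᵐ p : ℝ, a p ∈ Λ ∧ p - a p ∈ Ω ∧ ∀ l ∈ Λ, p - l ∈ Ω → l = a p

lemma TilesAtLevel.nonempty (h : TilesAtLevel 1 Ω Λ) : Λ.Nonempty := by
  obtain ⟨x, hx⟩ := h.2.exists
  rw [Nat.cast_one] at hx
  obtain ⟨l, hl, -⟩ := exists_unique_of_tsum hx
  exact ⟨l, hl⟩

lemma TilesAtLevel.exists_tileMap (h : TilesAtLevel 1 Ω Λ) (hΩ : MeasurableSet Ω) :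
    ∃ a, TileMap Ω Λ a := by
  classical
  obtain ⟨e, he⟩ := h.1.exists_eq_range h.nonempty
  have hp : ∀ x : ℝ, ∃ n, (x - e n ∈ Ω ∨ ∀ m, x - e m ∉ Ω) := by
    intro x
    by_cases hx : ∃ n, x - e n ∈ Ω
    · obtain ⟨n, hn⟩ := hx
      exact ⟨n, Or.inl hn⟩
    · push Not at hx
      exact ⟨0, Or.inr hx⟩
  have hm : ∀ k, MeasurableSet {x : ℝ | (x - e k ∈ Ω ∨ ∀ m, x - e m ∉ Ω)} := by
    intro k
    have h1 : ∀ m, MeasurableSet {x : ℝ | x - e m ∈ Ω} := fun m =>
      (measurable_id.sub_const (e m)) hΩ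
    have h2 : MeasurableSet {x : ℝ | ∀ m, x - e m ∉ Ω} := by
      have : {x : ℝ | ∀ m, x - e m ∉ Ω} = ⋂ m, {x : ℝ | x - e m ∈ Ω}ᶜ := by
        ext x; simp
      rw [this]
      exact MeasurableSet.iInter fun m => (h1 m).compl
    exact (h1 k).union h2
  refine ⟨fun x => e (Nat.find (hp x)), ?_, ?_⟩
  · exact (measurable_from_nat).comp (measurable_find hp hm)
  · filter_upwards [h.2] with x hx
    rw [Nat.cast_one] at hx
    obtain ⟨l, hl, hxl, hu⟩ := exists_unique_of_tsum hx
    have h3 := Nat.find_spec (hp x)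
    have h4 : x - e (Nat.find (hp x)) ∈ Ω := by
      rcases h3 with h3 | h3
      · exact h3
      · rw [he] at hl
        obtain ⟨m, rfl⟩ := hl
        exact absurd hxl (h3 m)
    have h5 : e (Nat.find (hp x)) ∈ Λ := by rw [he]; exact mem_range_self _
    refine ⟨h5, h4, ?_⟩
    intro l' hl' hxl'
    rw [hu l' hl' hxl', hu _ h5 h4]

/-- Different tiles are essentially disjoint. -/
lemma TilesAtLevel.null_inter (h : TilesAtLevel 1 Ω Λ) {l l' : ℝ} (hl : l ∈ Λ) (hl' : l' ∈ Λ)
    (hne : l ≠ l') : volume {p : ℝ | p - l ∈ Ω ∧ p - l' ∈ Ω} = 0 := by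
  rw [← compl_mem_ae_iff]
  filter_upwards [h.2] with x hx
  rw [Nat.cast_one] at hx
  obtain ⟨l₀, -, -, hu⟩ := exists_unique_of_tsum hx
  intro hcon
  exact hne ((hu l hl hcon.1).trans (hu l' hl' hcon.2).symm)

/-- `-Ω` tiles with the same translation set. -/
lemma TilesAtLevel.reversed (h : TilesAtLevel 1 Ω Λ) (hΩ : MeasurableSet Ω)
    (h0 : volume Ω ≠ 0) (hfin : volume Ω ≠ ∞) :
    ∀ᵐ z : ℝ, ∑' l : Λ, Ω.indicator (fun _ => (1 : ℝ≥0∞)) (l - z) = 1 := by
  classical
  have hc : Countable Λ := h.1.to_subtype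
  set g : ℝ → ℝ≥0∞ := fun z => ∑' l : Λ, Ω.indicator (fun _ => (1 : ℝ≥0∞)) (l - z) with hg
  have hmi : Measurable (Ω.indicator (fun _ => (1 : ℝ≥0∞))) := measurable_const.indicator hΩ
  have hgm : Measurable g := by
    apply Measurable.tsum
    intro l
    exact hmi.comp (measurable_const.sub measurable_id)
  -- `g ≤ 1` almost everywhere
  have hle : ∀ᵐ z : ℝ, g z ≤ 1 := by
    have h1 : ∀ᵐ z : ℝ, ∀ l l' : Λ, l ≠ l' → ¬ ((l : ℝ) - z ∈ Ω ∧ (l' : ℝ) - z ∈ Ω) := by
      rw [ae_all_iff]
      intro l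
      rw [ae_all_iff]
      intro l'
      by_cases hne : l = l'
      · exact Eventually.of_forall fun z hz => absurd hne hz
      · have h2 := h.null_inter l.2 l'.2 (fun hh => hne (Subtype.ext hh))
        have h3 : ∀ᵐ p : ℝ, ¬ (p - l ∈ Ω ∧ p - l' ∈ Ω) := by
          rw [ae_iff]
          simpa using h2
        have h4 := (Measure.measurePreserving_sub_left volume
          ((l : ℝ) + l')).quasiMeasurePreserving.ae h3
        filter_upwards [h4] with z hz _ hcon
        apply hz
        constructor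
        · have : (l : ℝ) + l' - z - l = l' - z := by ring
          rw [this]; exact hcon.2
        · have : (l : ℝ) + l' - z - l' = l - z := by ring
          rw [this]; exact hcon.1
    filter_upwards [h1] with z hz
    by_cases hex : ∃ l : Λ, (l : ℝ) - z ∈ Ω
    · obtain ⟨l, hl⟩ := hex
      have : g z = Ω.indicator (fun _ => (1 : ℝ≥0∞)) ((l : ℝ) - z) := by
        apply tsum_eq_single
        intro l' hl'
        apply indicator_of_notMem
        intro hcon
        exact hz l' l hl' ⟨hcon, hl⟩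
      rw [this, indicator_of_mem hl]
    · push Not at hex
      have : g z = 0 := by
        rw [hg]
        simp only [ENNReal.tsum_eq_zero]
        intro l
        exact indicator_of_notMem (hex l) _
      rw [this]
      exact bot_le
  -- the convolution identity
  have hconv : ∀ x : ℝ, ∫⁻ y in Ω, g (x - y) = volume Ω := by
    intro x
    calc ∫⁻ y in Ω, g (x - y)
        = ∑' l : Λ, ∫⁻ y in Ω, Ω.indicator (fun _ => (1 : ℝ≥0∞)) (l - (x - y)) := by
          rw [← lintegral_tsum]
          intro l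
          exact (hmi.comp (measurable_const.sub (measurable_const.sub
            measurable_id))).aemeasurable
      _ = ∑' l : Λ, ∫⁻ y in Ω, Ω.indicator (fun _ => (1 : ℝ≥0∞)) (y + x - l) := by
          congr 1
          funext l
          rw [← lintegral_indicator hΩ, ← lintegral_indicator hΩ]
          rw [← lintegral_sub_right_eq_self
            (fun y => Ω.indicator (fun y => Ω.indicator (fun _ => (1 : ℝ≥0∞)) (l - (x - y))) y)
            ((l : ℝ) - x)]
          congr 1
          funext y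
          have e1 : y - ((l : ℝ) - x) = y + x - l := by ring
          have e2 : (l : ℝ) - (x - (y + x - l)) = y := by ring
          rw [e1]
          by_cases h1 : y + x - l ∈ Ω
          · rw [indicator_of_mem h1, e2]
            by_cases h2 : y ∈ Ω
            · rw [indicator_of_mem h2, indicator_of_mem h2, indicator_of_mem h1]
            · rw [indicator_of_notMem h2, indicator_of_notMem h2]
          · rw [indicator_of_notMem h1]
            by_cases h2 : y ∈ Ω
            · rw [indicator_of_mem h2, indicator_of_notMem h1]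
            · rw [indicator_of_notMem h2]
      _ = ∫⁻ y in Ω, ∑' l : Λ, Ω.indicator (fun _ => (1 : ℝ≥0∞)) (y + x - l) := by
          rw [← lintegral_tsum]
          intro l
          exact (hmi.comp ((measurable_id.add_const x).sub_const _)).aemeasurable
      _ = ∫⁻ y in Ω, 1 := by
          apply lintegral_congr_ae
          apply ae_restrict_of_ae
          have h2 := (measurePreserving_add_right volume x).quasiMeasurePreserving.ae h.2
          filter_upwards [h2] with y hy
          rw [hy, Nat.cast_one]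
      _ = volume Ω := by simp
  -- the bad set
  set N : Set ℝ := {z | g z ≠ 1} with hN
  have hNm : MeasurableSet N := by
    have : N = (g ⁻¹' {1})ᶜ := by ext z; simp [hN]
    rw [this]
    exact (hgm (measurableSet_singleton 1)).compl
  have hbad : ∀ x : ℝ, ∫⁻ y in Ω, N.indicator (fun _ => (1 : ℝ≥0∞)) (x - y) = 0 := by
    intro x
    have h1 : ∀ᵐ y ∂(volume.restrict Ω), g (x - y) ≤ 1 := by
      apply ae_restrict_of_ae
      exact (Measure.measurePreserving_sub_left volume x).quasiMeasurePreserving.ae hle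
    have h2 : ∫⁻ y in Ω, (1 : ℝ≥0∞) = ∫⁻ y in Ω, g (x - y) := by
      rw [hconv x]; simp
    have h3 : (fun y => g (x - y)) =ᵐ[volume.restrict Ω] fun _ => (1 : ℝ≥0∞) := by
      apply ae_eq_of_ae_le_of_lintegral_le h1
      · rw [← h2]; simpa using hfin
      · exact measurable_const.aemeasurable
      · rw [h2]
    have hmN : Measurable fun y : ℝ => N.indicator (fun _ => (1 : ℝ≥0∞)) (x - y) :=
      (measurable_const.indicator hNm).comp (measurable_const.sub measurable_id)
    rw [lintegral_eq_zero_iff hmN]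
    filter_upwards [h3] with y hy
    have : x - y ∉ N := by simp [hN, hy]
    simp [indicator_of_notMem this]
  have hNnull : volume N = 0 := by
    have h1 : ∫⁻ x : ℝ, ∫⁻ y in Ω, N.indicator (fun _ => (1 : ℝ≥0∞)) (x - y) = 0 := by
      simp_rw [hbad]
      simp
    rw [lintegral_lintegral_swap] at h1
    · have h2 : ∀ y : ℝ, ∫⁻ x : ℝ, N.indicator (fun _ => (1 : ℝ≥0∞)) (x - y) = volume N := by
        intro y
        rw [lintegral_sub_right_eq_self (fun x => N.indicator (fun _ => (1 : ℝ≥0∞)) x) y]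
        rw [lintegral_indicator hNm]
        simp
      simp_rw [h2] at h1
      rw [lintegral_const, Measure.restrict_apply_univ, mul_eq_zero] at h1
      rcases h1 with h1 | h1
      · exact h1
      · exact absurd h1 h0
    · exact ((measurable_const.indicator hNm).comp
        (measurable_fst.sub measurable_snd)).aemeasurable
  rw [← compl_mem_ae_iff] at hNnull
  filter_upwards [hNnull] with z hz
  simpa [hN] using hz

/-- Tonelli along tiles, for functions of the point. -/
lemma TilesAtLevel.lintegral_eq (h : TilesAtLevel 1 Ω Λ) (hΩ : MeasurableSet Ω)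
    {F : ℝ → ℝ≥0∞} (hF : Measurable F) :
    ∫⁻ x, F x = ∑' l : Λ, ∫⁻ y in Ω, F (y + l) := by
  rw [h.sum_lintegral hΩ hF]
  simp

lemma TileMap.ae_tile {a : ℝ → ℝ} (ha : TileMap Ω Λ a) {l : ℝ} (hl : l ∈ Λ) (hΩ : MeasurableSet Ω) :
    ∀ᵐ y ∂(volume.restrict Ω), a (y + l) = l := by
  rw [ae_restrict_iff' hΩ]
  have h1 := (measurePreserving_add_right volume l).quasiMeasurePreserving.ae ha.ae
  filter_upwards [h1] with y hy hyΩ
  symm
  apply hy.2.2 l hl
  rw [add_sub_cancel_right]
  exact hyΩ

/-- Over any translate of `Ω`, the local coordinate in the tiling is distributed uniformly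
on `Ω`. -/
lemma TileMap.lintegral_local {a : ℝ → ℝ} (ha : TileMap Ω Λ a) (h : TilesAtLevel 1 Ω Λ)
    (hΩ : MeasurableSet Ω) (h0 : volume Ω ≠ 0) (hfin : volume Ω ≠ ∞) (β : ℝ)
    {u : ℝ → ℝ≥0∞} (hu : Measurable u) :
    ∫⁻ y in Ω, u (y + β - a (y + β)) = ∫⁻ y in Ω, u y := by
  classical
  have hc : Countable Λ := h.1.to_subtype
  have hmi : Measurable (Ω.indicator (fun _ => (1 : ℝ≥0∞))) := measurable_const.indicator hΩ
  have h1 : ∫⁻ y in Ω, u (y + β - a (y + β))
      = ∫⁻ p, Ω.indicator (fun _ => (1 : ℝ≥0∞)) (p - β) * u (p - a p) := by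
    rw [← lintegral_indicator hΩ]
    rw [← lintegral_sub_right_eq_self
      (fun y => Ω.indicator (fun y => u (y + β - a (y + β))) y) β]
    congr 1
    funext p
    by_cases hp : p - β ∈ Ω
    · simp [hp]
    · simp [hp]
  have hmF : Measurable fun p : ℝ => Ω.indicator (fun _ => (1 : ℝ≥0∞)) (p - β) * u (p - a p) :=
    (hmi.comp (measurable_id.sub_const β)).mul (hu.comp (measurable_id.sub ha.meas))
  rw [h1, h.lintegral_eq hΩ hmF]
  have h2 : ∀ l : Λ, ∫⁻ y in Ω, Ω.indicator (fun _ => (1 : ℝ≥0∞)) (y + l - β)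
      * u (y + l - a (y + l))
      = ∫⁻ y in Ω, Ω.indicator (fun _ => (1 : ℝ≥0∞)) (l - (β - y)) * u y := by
    intro l
    apply lintegral_congr_ae
    filter_upwards [ha.ae_tile l.2 hΩ] with y hy
    rw [hy, add_sub_cancel_right]
    congr 2
    ring
  simp_rw [h2]
  have hm3 : ∀ l : Λ, AEMeasurable (fun y : ℝ =>
      Ω.indicator (fun _ => (1 : ℝ≥0∞)) (l - (β - y)) * u y) (volume.restrict Ω) := fun l =>
    ((hmi.comp (measurable_const.sub (measurable_const.sub
            measurable_id))).mul hu).aemeasurable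
  rw [← lintegral_tsum hm3]
  apply lintegral_congr_ae
  apply ae_restrict_of_ae
  have h3 := (Measure.measurePreserving_sub_left volume β).quasiMeasurePreserving.ae
    (h.reversed hΩ h0 hfin)
  filter_upwards [h3] with y hy
  rw [ENNReal.tsum_mul_right, hy, one_mul]

end TilingLine
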