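import Pool.Agent.Helper32.Tiling.FirstMoment

/-!
# Level-one tilings by sets with a finite first moment are periodic
-/

open MeasureTheory Set Filter Topology
open scoped ENNReal symmDiff

namespace TilingLine

variable {Ω A B Λ : Set ℝ}

/-- A separated set with a nonzero period has a periodic structure. -/
lemma periodicStructure_of_period (hne : Λ.Nonempty) {r : ℝ} (hr : 0 < r)
    (hsep : ∀ l ∈ Λ, ∀ l' ∈ Λ, l ≠ l' → r < |l - l'|) {τ : ℝ} (hτ : τ ≠ 0)
    (h1 : ∀ x ∈ Λ, x + τ ∈ Λ) (h2 : ∀ x ∈ Λ, x - τ ∈ Λ) : PeriodicStructure Λ := by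
  classical
  wlog hpos : 0 < τ generalizing τ
  · have hneg : 0 < -τ := by
      have : τ ≤ 0 := not_lt.mp hpos
      have := lt_of_le_of_ne this hτ
      linarith
    apply this (neg_ne_zero.mpr hτ) _ _ hneg
    · intro x hx
      rw [← sub_eq_add_neg]
      exact h2 x hx
    · intro x hx
      rw [sub_neg_eq_add]
      exact h1 x hx
  -- integer multiples of the period
  have hint : ∀ (k : ℤ) (x : ℝ), x ∈ Λ → x + k * τ ∈ Λ := by
    intro k
    induction k using Int.induction_on with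
    | zero => intro x hx; simpa using hx
    | succ i ih =>
      intro x hx
      have := h1 _ (ih x hx)
      have e : x + ((i : ℤ) + 1 : ℤ) * τ = x + (i : ℤ) * τ + τ := by push_cast; ring
      rw [e]; exact this
    | pred i ih =>
      intro x hx
      have := h2 _ (ih x hx)
      have e : x + ((-(i : ℤ) - 1 : ℤ) : ℝ) * τ = x + ((-(i : ℤ) : ℤ) : ℝ) * τ - τ := by
        push_cast; ring
      rw [e]; exact this
  set S : Set ℝ := Λ ∩ Ico 0 τ with hS
  have hSfin : S.Finite := by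
    have hmaps : MapsTo (fun x : ℝ => ⌊x / r⌋) S (Icc (0 : ℤ) ⌊τ / r⌋) := by
      intro x hx
      constructor
      · apply Int.floor_nonneg.mpr
        have := hx.2.1
        positivity
      · apply Int.floor_le_floor
        have := hx.2.2.le
        gcongr
    have hinj : InjOn (fun x : ℝ => ⌊x / r⌋) S := by
      intro x hx y hy hxy
      by_contra hne'
      have h3 := hsep x hx.1 y hy.1 hne'
      have h4 : |x / r - y / r| < 1 := Int.abs_sub_lt_one_of_floor_eq_floor hxy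
      rw [← sub_div, abs_div, abs_of_pos hr, div_lt_one hr] at h4
      linarith
    exact Set.Finite.of_injOn hmaps hinj (finite_Icc _ _)
  obtain ⟨n, e⟩ : ∃ n : ℕ, Nonempty (Fin n ≃ S) := by
    have := hSfin.to_subtype
    exact ⟨Nat.card S, ⟨(Finite.equivFin S).symm⟩⟩
  obtain ⟨e⟩ := e
  have hred : ∀ x ∈ Λ, ∃ k : ℤ, x - k * τ ∈ S := by
    intro x hx
    refine ⟨⌊x / τ⌋, ?_, ?_, ?_⟩
    · have := hint (-⌊x / τ⌋) x hx
      have e : x + ((-⌊x / τ⌋ : ℤ) : ℝ) * τ = x - ⌊x / τ⌋ * τ := by push_cast; ring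
      rwa [e] at this
    · have := Int.floor_le (x / τ)
      rw [le_div_iff₀ hpos] at this
      linarith
    · have := Int.lt_floor_add_one (x / τ)
      rw [div_lt_iff₀ hpos] at this
      linarith
  refine ⟨τ, n, fun j => (e j : ℝ), hpos, ?_, ?_⟩
  · obtain ⟨x, hx⟩ := hne
    obtain ⟨k, hk⟩ := hred x hx
    have := e.symm ⟨_, hk⟩
    exact Nat.one_le_iff_ne_zero.mpr fun h0 => by
      subst h0
      exact this.elim0
  · ext x
    simp only [mem_iUnion, Set.mem_ofPred_eq]
    constructor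
    · intro hx
      obtain ⟨k, hk⟩ := hred x hx
      refine ⟨e.symm ⟨_, hk⟩, k, ?_⟩
      rw [Equiv.apply_symm_apply]
      simp only
      ring
    · rintro ⟨j, k, rfl⟩
      have := hint k _ (e j).2.1
      rw [add_comm, mul_comm]
      exact this

lemma TilesAtLevel.infinite (h : TilesAtLevel 1 Ω Λ) (hΩ : MeasurableSet Ω)
    (hfin : volume Ω ≠ ∞) : Λ.Infinite := by
  intro hcon
  have h1 := h.sum_lintegral hΩ (F := fun _ => 1) measurable_const
  have : Finite Λ := hcon.to_subtype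
  have hF : Fintype Λ := Fintype.ofFinite Λ
  rw [tsum_fintype] at h1
  simp only [lintegral_const, Measure.restrict_apply_univ, one_mul, Real.volume_univ,
    Finset.sum_const, nsmul_eq_mul, Nat.cast_one] at h1
  have h2 : ((Finset.univ : Finset Λ).card : ℝ≥0∞) * volume Ω ≠ ∞ :=
    ENNReal.mul_ne_top (ENNReal.natCast_ne_top _) hfin
  exact h2 h1

/-- A bijection between two separated sets that are mutually close. -/
lemma exists_equiv_of_close {r0 : ℝ}
    (hsA : ∀ l ∈ A, ∀ l' ∈ A, l ≠ l' → 2 * r0 < |l - l'|)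
    (hsB : ∀ l ∈ B, ∀ l' ∈ B, l ≠ l' → 2 * r0 < |l - l'|)
    (hBA : ∀ β ∈ B, ∃ α ∈ A, |α - β| < r0) (hAB : ∀ α ∈ A, ∃ β ∈ B, |β - α| < r0) :
    ∃ e : B ≃ A, ∀ l : B, |(e l : ℝ) - l| < r0 := by
  classical
  choose! f hf1 hf2 using hBA
  choose! g hg1 hg2 using hAB
  have hgf : ∀ β ∈ B, g (f β) = β := by
    intro β hβ
    by_contra hne
    have h1 := hsB _ (hg1 _ (hf1 β hβ)) β hβ hne
    have h2 := hg2 _ (hf1 β hβ)
    have h3 := hf2 β hβ
    have h4 : |g (f β) - β| ≤ |g (f β) - f β| + |f β - β| := by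
      have := abs_add_le (g (f β) - f β) (f β - β)
      simpa using this
    linarith
  have hfg : ∀ α ∈ A, f (g α) = α := by
    intro α hα
    by_contra hne
    have h1 := hsA _ (hf1 _ (hg1 α hα)) α hα hne
    have h2 := hf2 _ (hg1 α hα)
    have h3 := hg2 α hα
    have h4 : |f (g α) - α| ≤ |f (g α) - g α| + |g α - α| := by
      have := abs_add_le (f (g α) - g α) (g α - α)
      simpa using this
    linarith
  refine ⟨⟨fun l => ⟨f l, hf1 l l.2⟩, fun l => ⟨g l, hg1 l l.2⟩, ?_, ?_⟩, ?_⟩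
  · intro l; exact Subtype.ext (hgf l l.2)
  · intro l; exact Subtype.ext (hfg l l.2)
  · intro l; exact hf2 l l.2

/-- **Theorem.** If `Ω` has positive finite measure and `∫_Ω |x| dx < ∞`, then every translation
set with which `1_Ω` tiles the line at level one has a periodic structure. -/
theorem periodicStructure_of_firstMoment (hΩ : MeasurableSet Ω) (h0 : volume Ω ≠ 0)
    (hfin : volume Ω ≠ ∞) (hmom : ∫⁻ y in Ω, ENNReal.ofReal |y| ≠ ∞)
    (hΛ : TilesAtLevel 1 Ω Λ) : PeriodicStructure Λ := by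
  classical
  -- constants
  have h3 : 0 < volume Ω / 3 := ENNReal.div_pos h0 (by norm_num)
  obtain ⟨r1, hr1, hr1s⟩ := exists_small_shift hΩ hfin h3
  have hη2 : 2 * (volume Ω / 3) < volume Ω := by
    have h4 : 2 * (volume Ω / 3) + volume Ω / 3 = volume Ω := by
      have : 2 * (volume Ω / 3) + volume Ω / 3 = 3 * (volume Ω / 3) := by ring
      rw [this, ENNReal.mul_div_cancel (by norm_num) (by norm_num)]
    have h5 : 2 * (volume Ω / 3) ≠ ∞ :=
      ENNReal.mul_ne_top (by norm_num) (ENNReal.div_ne_top hfin (by norm_num))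
    calc 2 * (volume Ω / 3) < 2 * (volume Ω / 3) + volume Ω / 3 :=
          ENNReal.lt_add_right h5 h3.ne'
      _ = volume Ω := h4
  have hlt : ∀ h : ℝ, |h| ≤ r1 → volume {y | y ∈ Ω ∧ y - h ∉ Ω} < volume Ω := by
    intro h hh
    refine lt_of_le_of_lt (hr1s h hh) (lt_of_le_of_lt ?_ hη2)
    rw [two_mul]
    exact le_self_add
  have hsep : ∀ l ∈ Λ, ∀ l' ∈ Λ, l ≠ l' → r1 < |l - l'| := fun l hl l' hl' hne =>
    hΛ.separated hlt hl hl' hne
  set r0 := r1 / 2 with hr0
  have hr0pos : 0 < r0 := by positivity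
  -- the lower bound
  set κ0 : ℝ≥0∞ := ∫⁻ y in Ω, ENNReal.ofReal (min (obs (y + r0) - obs y) (obs y - obs (y - r0)))
    with hκ0
  have hobsm : Measurable obs := obs_strictMono.monotone.measurable
  have hκ0m : Measurable fun y : ℝ =>
      ENNReal.ofReal (min (obs (y + r0) - obs y) (obs y - obs (y - r0))) := by
    apply ENNReal.measurable_ofReal.comp
    exact ((hobsm.comp (measurable_id.add_const _)).sub hobsm).min
      (hobsm.sub (hobsm.comp (measurable_id.sub_const _)))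
  have hκ0pos : 0 < κ0 := by
    rw [pos_iff_ne_zero]
    intro hcon
    rw [hκ0, lintegral_eq_zero_iff hκ0m] at hcon
    have h6 : ∀ᵐ y ∂(volume.restrict Ω), False := by
      filter_upwards [hcon] with y hy
      simp only [Pi.zero_apply, ENNReal.ofReal_eq_zero] at hy
      have h7 : obs y < obs (y + r0) := obs_strictMono (by linarith)
      have h8 : obs (y - r0) < obs y := obs_strictMono (by linarith)
      have h9 : 0 < min (obs (y + r0) - obs y) (obs y - obs (y - r0)) :=
        lt_min (by linarith) (by linarith)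
      linarith
    rw [ae_restrict_iff' hΩ] at h6
    apply h0
    rw [← compl_mem_ae_iff]
    filter_upwards [h6] with y hy hyΩ
    exact hy hyΩ
  have hκ0fin : κ0 ≠ ∞ := by
    have h6 : κ0 ≤ ∫⁻ y in Ω, 1 := by
      apply lintegral_mono
      intro y
      beta_reduce
      rw [ENNReal.ofReal_le_one]
      refine (min_le_left _ _).trans ?_
      linarith [obs_le_one (y + r0), obs_nonneg y]
    refine ne_top_of_le_ne_top ?_ h6
    simpa using hfin
  set κ := κ0 / 3 with hκ
  have hκpos : 0 < κ := ENNReal.div_pos hκ0pos.ne' (by norm_num)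
  have hκfin : κ ≠ ∞ := ENNReal.div_ne_top hκ0fin (by norm_num)
  have h2κ : 2 * κ < κ0 := by
    have h4 : 2 * κ + κ = κ0 := by
      have : 2 * κ + κ = 3 * (κ0 / 3) := by rw [hκ]; ring
      rw [this, ENNReal.mul_div_cancel (by norm_num) (by norm_num)]
    calc 2 * κ < 2 * κ + κ :=
          ENNReal.lt_add_right (ENNReal.mul_ne_top (by norm_num) hκfin) hκpos.ne'
      _ = κ0 := h4
  obtain ⟨M', ε, hε, hsmall⟩ := exists_cur_le hΩ h0 hfin hmom hr1 hκpos hκfin
  -- pigeonhole
  set N : ℤ := ⌈M' / ε⌉ + 1 with hN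
  set F : ℝ → Set ℤ := fun l => {k | ∃ μ ∈ Λ, |μ - l| ≤ M' ∧ ⌊(μ - l) / ε⌋ = k} with hF
  have hmaps : MapsTo F Λ (𝒫 (Icc (-N) N)) := by
    intro l _ k hk
    obtain ⟨μ, -, hμ, rfl⟩ := hk
    have h4 := abs_le.mp hμ
    have h5 : (μ - l) / ε ≤ M' / ε := by gcongr; exact h4.2
    have h6 : -(M' / ε) ≤ (μ - l) / ε := by
      rw [← neg_div]; gcongr; exact h4.1
    have h7 : M' / ε ≤ ⌈M' / ε⌉ := Int.le_ceil _
    constructor
    · rw [hN, Int.le_floor]
      push_cast
      linarith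
    · have h8 : (⌊(μ - l) / ε⌋ : ℝ) ≤ (μ - l) / ε := Int.floor_le _
      have h9 : (⌊(μ - l) / ε⌋ : ℝ) ≤ (⌈M' / ε⌉ + 1 : ℤ) := by
        push_cast
        linarith
      exact_mod_cast h9
  have hfinset : (𝒫 (Icc (-N) N) : Set (Set ℤ)).Finite := (finite_Icc _ _).finite_subsets
  obtain ⟨l, hl, l', hl', hne, hFe⟩ := (hΛ.infinite hΩ hfin).exists_ne_map_eq_of_mapsTo hmaps
    hfinset
  -- the two translates
  set A : Set ℝ := (fun x => x + -l') '' Λ with hA
  set B : Set ℝ := (fun x => x + -l) '' Λ with hB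
  have hAt : TilesAtLevel 1 Ω A := hΛ.translate (-l')
  have hBt : TilesAtLevel 1 Ω B := hΛ.translate (-l)
  have hsA : ∀ x ∈ A, ∀ y ∈ A, x ≠ y → r1 < |x - y| := fun x hx y hy hxy =>
    hAt.separated hlt hx hy hxy
  have hsB : ∀ x ∈ B, ∀ y ∈ B, x ≠ y → r1 < |x - y| := fun x hx y hy hxy =>
    hBt.separated hlt hx hy hxy
  obtain ⟨a, ha⟩ := hAt.exists_tileMap hΩ
  obtain ⟨b, hb⟩ := hBt.exists_tileMap hΩ
  have hmatch : ∀ α ∈ A, |α| ≤ M' → ∃ β ∈ B, |α - β| ≤ ε := by
    rintro _ ⟨μ', hμ', rfl⟩ hα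
    have h4 : ⌊(μ' - l') / ε⌋ ∈ F l' := ⟨μ', hμ', by simpa [sub_eq_add_neg] using hα, rfl⟩
    rw [← hFe] at h4
    obtain ⟨μ, hμ, -, hfl⟩ := h4
    refine ⟨μ + -l, ⟨μ, hμ, rfl⟩, ?_⟩
    have h5 : |(μ' - l') / ε - (μ - l) / ε| < 1 := Int.abs_sub_lt_one_of_floor_eq_floor hfl.symm
    rw [← sub_div, abs_div, abs_of_pos hε, div_lt_one hε] at h5
    have e1 : μ' + -l' - (μ + -l) = μ' - l' - (μ - l) := by ring
    simp only
    rw [e1]
    exact h5.le
  have hcur0 := hsmall A B a b hAt hBt ha hb hsA hsB hmatch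
  have hconst : ∀ x, cur obs a b x ≤ κ := by
    intro x
    rcases le_total x 0 with hx | hx
    · rw [cur_const ha hAt hb hBt hΩ h0 hfin obs_strictMono.monotone obs_nonneg obs_le_one hx]
      exact hcur0
    · rw [← cur_const ha hAt hb hBt hΩ h0 hfin obs_strictMono.monotone obs_nonneg obs_le_one hx]
      exact hcur0
  have hBA : ∀ β ∈ B, ∃ α ∈ A, |α - β| < r0 := by
    intro β hβ
    by_contra hcon
    push Not at hcon
    have h4 := le_cur_add_cur ha hb hΩ obs_strictMono.monotone hr0pos hβ hcon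
    have h5 : κ0 ≤ 2 * κ := by
      rw [two_mul]
      exact h4.trans (add_le_add (hconst _) (hconst _))
    exact absurd h2κ (not_lt.mpr h5)
  have hAB : ∀ α ∈ A, ∃ β ∈ B, |β - α| < r0 := by
    intro α hα
    by_contra hcon
    push Not at hcon
    have h4 := le_cur_add_cur hb ha hΩ obs_strictMono.monotone hr0pos hα hcon
    have h5 : κ0 ≤ 2 * κ := by
      rw [two_mul]
      refine h4.trans (add_le_add ?_ ?_)
      · rw [cur_symm]; exact hconst _
      · rw [cur_symm]; exact hconst _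
    exact absurd h2κ (not_lt.mpr h5)
  have e2 : 2 * r0 = r1 := by rw [hr0]; ring
  obtain ⟨e, he⟩ := exists_equiv_of_close (r0 := r0) (by rw [e2]; exact hsA)
    (by rw [e2]; exact hsB) hBA hAB
  obtain ⟨c, hc⟩ := rigidity hΩ hfin hBt hAt e (R := r1) (η := volume Ω / 3)
    (fun x y => by
      have h4 := abs_lt.mp (he x)
      have h5 := abs_lt.mp (he y)
      linarith) hη2 hr1s
  -- the period
  have hcabs : |c| < r0 := by
    obtain ⟨x, hx⟩ := hBt.nonempty
    have h4 := he ⟨x, hx⟩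
    rw [hc] at h4
    simpa using h4
  have hτ : l' - l + c ≠ 0 := by
    intro hcon
    have h4 := hsep l' hl' l hl (Ne.symm hne)
    have h5 : l' - l = -c := by linarith
    rw [h5, abs_neg] at h4
    linarith
  apply periodicStructure_of_period hΛ.nonempty hr1 hsep hτ
  · intro x hx
    have hxB : x + -l ∈ B := ⟨x, hx, rfl⟩
    have h4 : ((e ⟨x + -l, hxB⟩ : A) : ℝ) ∈ A := (e ⟨x + -l, hxB⟩).2
    rw [hc] at h4
    obtain ⟨μ, hμ, hμe⟩ := h4
    simp only at hμe
    have : x + (l' - l + c) = μ := by linarith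
    rw [this]; exact hμ
  · intro x hx
    have hxA : x + -l' ∈ A := ⟨x, hx, rfl⟩
    obtain ⟨y, hy⟩ := e.surjective ⟨x + -l', hxA⟩
    have h4 := hc y
    rw [hy] at h4
    obtain ⟨μ, hμ, hμe⟩ := y.2
    simp only at hμe h4
    have : x - (l' - l + c) = μ := by linarith
    rw [this]; exact hμ

end TilingLine
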