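import Pool.Agent.Helper32.Tiling.LevelOne

/-!
# Level one tilings: separation and counting
-/

open MeasureTheory Set Filter Topology
open scoped ENNReal symmDiff

namespace TilingLine

variable {Ω Λ : Set ℝ}

/-- Continuity of translation in measure. -/
lemma exists_small_shift (hΩ : MeasurableSet Ω) (hfin : volume Ω ≠ ∞) {ε : ℝ≥0∞} (hε : 0 < ε) :
    ∃ r : ℝ, 0 < r ∧ ∀ h : ℝ, |h| ≤ r → volume {y | y ∈ Ω ∧ y - h ∉ Ω} ≤ ε := by
  set F : C(ℝ × ℝ, ℝ) := ⟨fun p => p.2 - p.1, by fun_prop⟩ with hF
  have h1 : Tendsto (fun h : ℝ => F.curry h) (𝓝 0) (𝓝 (F.curry 0)) := F.curry.continuous.tendsto 0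
  have h2 := tendsto_measure_symmDiff_preimage_nhds_zero (μ := (volume : Measure ℝ))
    (ν := (volume : Measure ℝ)) (s := Ω) h1
    (Eventually.of_forall fun h => by
      have : (⇑(F.curry h)) = fun x : ℝ => x - h := by funext x; rfl
      rw [this]; exact measurePreserving_sub_right volume h)
    (by
      have : (⇑(F.curry 0)) = fun x : ℝ => x - 0 := by funext x; rfl
      rw [this]; exact measurePreserving_sub_right volume 0)
    hΩ.nullMeasurableSet hfin
  rw [ENNReal.tendsto_nhds_zero] at h2
  have h3 := h2 ε hε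
  rw [Metric.eventually_nhds_iff] at h3
  obtain ⟨δ, hδ, h3⟩ := h3
  refine ⟨δ / 2, by positivity, ?_⟩
  intro h hh
  have h4 := h3 (y := h) (by rw [Real.dist_eq, sub_zero]; linarith)
  refine le_trans (measure_mono ?_) h4
  intro y hy
  right
  refine ⟨?_, ?_⟩
  · show y - 0 ∈ Ω
    rw [sub_zero]; exact hy.1
  · exact hy.2

/-- The tiles of a level-one tiling are separated. -/
lemma TilesAtLevel.separated (h : TilesAtLevel 1 Ω Λ)
    {r : ℝ} (hr : ∀ h : ℝ, |h| ≤ r → volume {y | y ∈ Ω ∧ y - h ∉ Ω} < volume Ω) {l l' : ℝ}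
    (hl : l ∈ Λ) (hl' : l' ∈ Λ) (hne : l ≠ l') : r < |l - l'| := by
  by_contra hcon
  push Not at hcon
  have h1 := h.null_inter hl' hl (Ne.symm hne)
  have h2 : volume {y | y ∈ Ω ∧ y - (l - l') ∈ Ω} = 0 := by
    have h3 := (measurePreserving_add_right volume l').measure_preimage_equiv
      (f := MeasurableEquiv.addRight l') {p : ℝ | p - l' ∈ Ω ∧ p - l ∈ Ω}
    rw [h1] at h3
    rw [← h3]
    congr 1
    ext y
    have e1 : y + l' - l' = y := by ring
    have e2 : y + l' - l = y - (l - l') := by ring
    simp [e2]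
  have h4 := hr (l - l') hcon
  have h5 : volume Ω ≤ volume {y | y ∈ Ω ∧ y - (l - l') ∉ Ω}
      + volume {y | y ∈ Ω ∧ y - (l - l') ∈ Ω} := by
    refine le_trans (measure_mono ?_) (measure_union_le _ _)
    intro y hy
    by_cases hy2 : y - (l - l') ∈ Ω
    · right; exact ⟨hy, hy2⟩
    · left; exact ⟨hy, hy2⟩
  rw [h2, add_zero] at h5
  exact absurd h4 (not_lt.mpr h5)

/-- Counting the points of a separated set in an interval. -/
lemma tsum_indicator_le {r : ℝ} (hr : 0 < r) (hc : Λ.Countable)
    (hsep : ∀ l ∈ Λ, ∀ l' ∈ Λ, l ≠ l' → r < |l - l'|) {c d : ℝ} (hcd : c ≤ d) :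
    ∑' l : Λ, (Icc c d).indicator (fun _ => (1 : ℝ≥0∞)) (l : ℝ) ≤ ENNReal.ofReal ((d - c) / r + 1) := by
  classical
  have hcc : Countable Λ := hc.to_subtype
  set J := Icc c d with hJ
  have hkey : ∑' l : Λ, J.indicator (fun _ => (1 : ℝ≥0∞)) (l : ℝ) * ENNReal.ofReal r
      ≤ ENNReal.ofReal (d - c + r) := by
    have h1 : ∀ l : Λ, J.indicator (fun _ => (1 : ℝ≥0∞)) (l : ℝ) * ENNReal.ofReal r
        = ∫⁻ x, J.indicator (fun _ => (1 : ℝ≥0∞)) (l : ℝ)
          * (Ioo ((l : ℝ) - r / 2) (l + r / 2)).indicator (fun _ => (1 : ℝ≥0∞)) x := by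
      intro l
      rw [lintegral_const_mul _ (measurable_const.indicator measurableSet_Ioo),
        lintegral_indicator measurableSet_Ioo]
      congr 1
      simp only [lintegral_const, Measure.restrict_apply_univ, one_mul, Real.volume_Ioo]
      congr 1
      ring
    simp_rw [h1]
    have hm1 : ∀ l : Λ, AEMeasurable (fun x : ℝ => J.indicator (fun _ => (1 : ℝ≥0∞)) (l : ℝ)
          * (Ioo ((l : ℝ) - r / 2) (l + r / 2)).indicator (fun _ => (1 : ℝ≥0∞)) x) volume :=
      fun l => (measurable_const.mul (measurable_const.indicator measurableSet_Ioo)).aemeasurable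
    rw [← lintegral_tsum hm1]
    calc ∫⁻ x, ∑' l : Λ, J.indicator (fun _ => (1 : ℝ≥0∞)) (l : ℝ)
          * (Ioo ((l : ℝ) - r / 2) (l + r / 2)).indicator (fun _ => (1 : ℝ≥0∞)) x
        ≤ ∫⁻ x, (Icc (c - r / 2) (d + r / 2)).indicator (fun _ => (1 : ℝ≥0∞)) x := by
          apply lintegral_mono
          intro x
          by_cases hex : ∃ l : Λ, (l : ℝ) ∈ J ∧ x ∈ Ioo ((l : ℝ) - r / 2) (l + r / 2)
          · obtain ⟨l, hl1, hl2⟩ := hex
            show ∑' l : Λ, _ ≤ _
            rw [tsum_eq_single l]
            · rw [indicator_of_mem hl1, indicator_of_mem hl2, indicator_of_mem]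
              · simp
              · constructor
                · linarith [hl1.1, hl2.1]
                · linarith [hl1.2, hl2.2]
            · intro l' hl'
              by_cases hx : x ∈ Ioo ((l' : ℝ) - r / 2) (l' + r / 2)
              · exfalso
                have := hsep l l.2 l' l'.2 (fun hh => hl' (Subtype.ext hh.symm))
                have h3 : |(l : ℝ) - l'| < r := by
                  rw [abs_lt]
                  constructor
                  · linarith [hl2.1, hx.2, hl2.2, hx.1]
                  · linarith [hl2.1, hx.2, hl2.2, hx.1]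
                linarith
              · rw [indicator_of_notMem hx, mul_zero]
          · push Not at hex
            show ∑' l : Λ, _ ≤ _
            have : ∑' l : Λ, J.indicator (fun _ => (1 : ℝ≥0∞)) (l : ℝ)
                * (Ioo ((l : ℝ) - r / 2) (l + r / 2)).indicator (fun _ => (1 : ℝ≥0∞)) x = 0 := by
              rw [ENNReal.tsum_eq_zero]
              intro l
              by_cases hl1 : (l : ℝ) ∈ J
              · rw [indicator_of_notMem (hex l hl1), mul_zero]
              · rw [indicator_of_notMem hl1, zero_mul]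
            rw [this]
            exact bot_le
      _ = ENNReal.ofReal (d - c + r) := by
          rw [lintegral_indicator measurableSet_Icc]
          simp only [lintegral_const, Measure.restrict_apply_univ, one_mul, Real.volume_Icc]
          congr 1
          ring
  rw [ENNReal.tsum_mul_right] at hkey
  have h2 : ENNReal.ofReal (d - c + r) = ENNReal.ofReal ((d - c) / r + 1) * ENNReal.ofReal r := by
    rw [← ENNReal.ofReal_mul (by have := sub_nonneg.mpr hcd; positivity)]
    congr 1
    field_simp
  rw [h2] at hkey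
  exact (ENNReal.mul_le_mul_iff_left (by simpa using hr) ENNReal.ofReal_ne_top).mp hkey

end TilingLine
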